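import Mathlib

/-!
# An upper bound for the projective dimensions of modules over an incidence algebra
-/

open CategoryTheory

namespace Q4.Orb

section

variable {P : Type} [PartialOrder P] [Fintype P] [LocallyFiniteOrder P] [DecidableEq P]

/-- The incidence algebra. -/
abbrev RR (P : Type) [PartialOrder P] : Type := IncidenceAlgebra ℚ P

theorem mul_apply' (f g : RR P) (a b : P) : (f * g) a b = ∑ x, f a x * g x b := by
  rw [IncidenceAlgebra.mul_apply]
  refine Finset.sum_subset (Finset.subset_univ _) fun x _ hx => ?_
  rw [Finset.mem_Icc, not_and_or] at hx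
  rcases hx with hx | hx
  · rw [IncidenceAlgebra.apply_eq_zero_of_not_le hx, zero_mul]
  · rw [IncidenceAlgebra.apply_eq_zero_of_not_le hx, mul_zero]

/-- Functions on the poset. -/
def Fn (P V : Type) : Type := P → V

variable {V : Type} [AddCommGroup V] [Module ℚ V]

instance : AddCommGroup (Fn P V) := inferInstanceAs (AddCommGroup (P → V))

theorem Fn.add_apply' (φ ψ : Fn P V) (y : P) : (φ + ψ) y = φ y + ψ y := rfl

instance : Module (RR P) (Fn P V) where
  smul f φ := fun y => ∑ z, f y z • φ z
  one_smul φ := by
    funext y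
    change ∑ z, (1 : RR P) y z • φ z = φ y
    simp only [IncidenceAlgebra.one_apply, ite_smul, one_smul, zero_smul, Finset.sum_ite_eq,
      Finset.mem_univ, if_true]
  mul_smul f g φ := by
    funext y
    change ∑ z, (f * g) y z • φ z = ∑ x, f y x • ∑ z, g x z • φ z
    simp only [mul_apply', Finset.sum_smul, Finset.smul_sum, mul_smul]
    rw [Finset.sum_comm]
  smul_zero f := by
    funext y
    change ∑ z, f y z • (0 : V) = 0
    simp
  smul_add f φ ψ := by
    funext y
    change ∑ z, f y z • (φ z + ψ z) = ∑ z, f y z • φ z + ∑ z, f y z • ψ z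
    simp only [smul_add, Finset.sum_add_distrib]
  add_smul f g φ := by
    funext y
    change ∑ z, (f y z + g y z) • φ z = ∑ z, f y z • φ z + ∑ z, g y z • φ z
    simp only [add_smul, Finset.sum_add_distrib]
  zero_smul φ := by
    funext y
    change ∑ z, (0 : RR P) y z • φ z = 0
    simp [IncidenceAlgebra.zero_apply]

theorem smul_fn_apply (f : RR P) (φ : Fn P V) (y : P) : (f • φ) y = ∑ z, f y z • φ z := rfl

/-- The functions supported on a lower set. -/
def sub (D : LowerSet P) (V : Type) [AddCommGroup V] [Module ℚ V] : Submodule (RR P) (Fn P V) where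
  carrier := {φ | ∀ y, y ∉ D → φ y = 0}
  add_mem' := by
    intro φ ψ hφ hψ y hy
    rw [Fn.add_apply', hφ y hy, hψ y hy, add_zero]
  zero_mem' := fun y _ => rfl
  smul_mem' := by
    intro f φ hφ y hy
    rw [smul_fn_apply]
    refine Finset.sum_eq_zero fun z _ => ?_
    by_cases hyz : y ≤ z
    · rw [hφ z (fun hz => hy (D.lower hyz hz)), smul_zero]
    · rw [IncidenceAlgebra.apply_eq_zero_of_not_le hyz, zero_smul]

theorem mem_sub {D : LowerSet P} {φ : Fn P V} : φ ∈ sub D V ↔ ∀ y, y ∉ D → φ y = 0 := Iff.rfl

/-- A coefficient. -/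
noncomputable def coef (x : P) (φ : sub (LowerSet.Iic x) V) (j : Module.Basis.ofVectorSpaceIndex ℚ V) :
    RR P where
  toFun := fun a c => if c = x then (Module.Basis.ofVectorSpace ℚ V).repr (φ.1 a) j else 0
  eq_zero_of_not_le' := by
    intro a c h
    split_ifs with hc
    · subst hc
      rw [φ.2 a (by rwa [LowerSet.mem_Iic_iff]), map_zero]
      rfl
    · rfl

theorem coef_apply (x : P) (φ : sub (LowerSet.Iic x) V) (j : Module.Basis.ofVectorSpaceIndex ℚ V)
    (a c : P) : coef x φ j a c =
      if c = x then (Module.Basis.ofVectorSpace ℚ V).repr (φ.1 a) j else 0 := rfl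

open Classical in
/-- The splitting. -/
noncomputable def spl (x : P) :
    sub (LowerSet.Iic x) V →ₗ[RR P] (Module.Basis.ofVectorSpaceIndex ℚ V →₀ RR P) where
  toFun φ := Finsupp.onFinset
    (Finset.univ.biUnion fun a => ((Module.Basis.ofVectorSpace ℚ V).repr (φ.1 a)).support)
    (coef x φ) (by
      intro j hj
      by_contra h
      apply hj
      ext a c _
      rw [coef_apply]
      split_ifs
      · by_contra h'
        exact h (Finset.mem_biUnion.2 ⟨a, Finset.mem_univ a, Finsupp.mem_support_iff.2 h'⟩)
      · rfl)
  map_add' φ ψ := by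
    ext j a c _
    change coef x (φ + ψ) j a c = coef x φ j a c + coef x ψ j a c
    simp only [coef_apply]
    split_ifs
    · change (Module.Basis.ofVectorSpace ℚ V).repr (φ.1 a + ψ.1 a) j = _
      rw [map_add]
      rfl
    · rw [add_zero]
  map_smul' f φ := by
    ext j a c _
    change coef x (f • φ) j a c = (f * coef x φ j) a c
    rw [mul_apply']
    simp only [coef_apply]
    split_ifs
    · change (Module.Basis.ofVectorSpace ℚ V).repr (∑ z, f a z • φ.1 z) j = _
      rw [map_sum, Finsupp.finsetSum_apply]
      refine Finset.sum_congr rfl fun z _ => ?_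
      rw [map_smul, Finsupp.smul_apply, smul_eq_mul]
    · simp

/-- The generators. -/
noncomputable def gen (x : P) (v : V) : sub (LowerSet.Iic x) V :=
  ⟨fun y => if y = x then v else 0, fun y hy => if_neg fun h => hy (by
    rw [LowerSet.mem_Iic_iff, h])⟩

theorem projective_Iic (x : P) : Module.Projective (RR P) (sub (LowerSet.Iic x) V) := by
  refine Module.Projective.of_split (spl x) (Finsupp.linearCombination (RR P)
    fun j => gen x (Module.Basis.ofVectorSpace ℚ V j)) ?_
  refine LinearMap.ext fun φ => Subtype.ext (funext fun a => ?_)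
  rw [LinearMap.comp_apply, Finsupp.linearCombination_apply, LinearMap.id_apply]
  have h1 : ∀ j, (spl x φ) j = coef x φ j := fun j => rfl
  rw [Finsupp.sum, Submodule.coe_sum]
  have h2 : ∀ (s : Finset (Module.Basis.ofVectorSpaceIndex ℚ V)) (F : _ → Fn P V),
      (∑ j ∈ s, F j) a = ∑ j ∈ s, F j a := by
    intro s F
    exact Finset.sum_apply a s F
  rw [h2]
  have h3 : ∀ j, ((spl x φ j • gen x (Module.Basis.ofVectorSpace ℚ V j) :
      sub (LowerSet.Iic x) V) : Fn P V) a =
      (Module.Basis.ofVectorSpace ℚ V).repr (φ.1 a) j • Module.Basis.ofVectorSpace ℚ V j := by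
    intro j
    change ∑ z, coef x φ j a z • (if z = x then Module.Basis.ofVectorSpace ℚ V j else 0) = _
    rw [Finset.sum_eq_single x]
    · rw [if_pos rfl, coef_apply, if_pos rfl]
    · intro z _ hz
      rw [if_neg hz, smul_zero]
    · intro h
      exact absurd (Finset.mem_univ x) h
  simp only [h3]
  conv_rhs => rw [← (Module.Basis.ofVectorSpace ℚ V).linearCombination_repr (φ.1 a),
    Finsupp.linearCombination_apply, Finsupp.sum]
  symm
  refine Finset.sum_subset ?_ fun j _ hj => ?_
  · intro j hj
    rw [Finsupp.mem_support_iff] at hj ⊢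
    intro h4
    apply hj
    have h5 := congrArg (fun f : RR P => f a x) ((h1 j).symm.trans h4)
    change coef x φ j a x = 0 at h5
    rwa [coef_apply, if_pos rfl] at h5
  · rw [Finsupp.notMem_support_iff.1 hj, zero_smul]

theorem pd_Iic (x : P) :
    HasProjectiveDimensionLT (ModuleCat.of (RR P) (sub (LowerSet.Iic x) V)) 1 := by
  have := (IsProjective.iff_projective (R := RR P) (sub (LowerSet.Iic x) V)).1 (projective_Iic x)
  infer_instance

theorem pd_of_subsingleton (n : ℕ) (N : Type) [AddCommGroup N] [Module (RR P) N]
    [Subsingleton N] : HasProjectiveDimensionLT (ModuleCat.of (RR P) N) n := by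
  have h1 : Limits.IsZero (ModuleCat.of (RR P) N) := ModuleCat.isZero_of_subsingleton _
  have := h1.hasProjectiveDimensionLT_zero
  exact hasProjectiveDimensionLT_of_ge _ 0 n (Nat.zero_le _)

/-- Extension by a larger lower set. -/
def incl {D D' : LowerSet P} (h : D ≤ D') : sub D V →ₗ[RR P] sub D' V :=
  Submodule.inclusion fun _ hφ y hy => hφ y fun hy' => hy (h hy')

theorem pd_union (a b c : P) (hc : ∀ y, (y ≤ a ∧ y ≤ b) ↔ y ≤ c) :
    HasProjectiveDimensionLT (ModuleCat.of (RR P) (sub (LowerSet.Iic a ⊔ LowerSet.Iic b) V)) 2 := by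
  classical
  have hca : LowerSet.Iic c ≤ LowerSet.Iic a := fun y hy => ((hc y).2 hy).1
  have hcb : LowerSet.Iic c ≤ LowerSet.Iic b := fun y hy => ((hc y).2 hy).2
  let f : sub (LowerSet.Iic c) V →ₗ[RR P] (sub (LowerSet.Iic a) V × sub (LowerSet.Iic b) V) :=
    (incl hca).prod (-incl hcb)
  let g : (sub (LowerSet.Iic a) V × sub (LowerSet.Iic b) V) →ₗ[RR P]
      sub (LowerSet.Iic a ⊔ LowerSet.Iic b) V := (incl le_sup_left).coprod (incl le_sup_right)
  have hg : ∀ φ ψ, ((g (φ, ψ) : sub (LowerSet.Iic a ⊔ LowerSet.Iic b) V) : Fn P V) =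
      (φ : Fn P V) + (ψ : Fn P V) := fun φ ψ => rfl
  have hex : Function.Exact f g := by
    rintro ⟨φ, ψ⟩
    constructor
    · intro h
      have h1 : (φ : Fn P V) + (ψ : Fn P V) = 0 := by
        rw [← hg, h]
        rfl
      have h2 : (φ : Fn P V) ∈ sub (LowerSet.Iic c) V := by
        intro y hy
        by_cases hya : y ∈ LowerSet.Iic a
        · have hyb : y ∉ LowerSet.Iic b := fun hyb => hy ((hc y).1 ⟨hya, hyb⟩)
          have h3 := congrFun h1 y
          rw [Fn.add_apply', ψ.2 y hyb, add_zero] at h3
          exact h3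
        · exact φ.2 y hya
      refine ⟨⟨φ, h2⟩, ?_⟩
      refine Prod.ext (Subtype.ext rfl) (Subtype.ext ?_)
      change -(φ : Fn P V) = ψ
      exact neg_eq_of_add_eq_zero_right h1
    · rintro ⟨χ, hχ⟩
      rw [← hχ]
      apply Subtype.ext
      change (χ : Fn P V) + -(χ : Fn P V) = 0
      exact add_neg_cancel _
  have hinj : Function.Injective f := by
    intro φ ψ h
    have h1 := congrArg (fun p : sub (LowerSet.Iic a) V × sub (LowerSet.Iic b) V =>
      ((p.1 : sub (LowerSet.Iic a) V) : Fn P V)) h
    exact Subtype.ext h1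
  have hsurj : Function.Surjective g := by
    intro χ
    refine ⟨(⟨fun y => if y ≤ a then χ.1 y else 0, fun y hy => if_neg hy⟩,
      ⟨fun y => if y ≤ a then 0 else χ.1 y, fun y hy => ?_⟩), ?_⟩
    · change (if y ≤ a then 0 else χ.1 y) = 0
      split_ifs with h
      · rfl
      · refine χ.2 y fun hm => ?_
        rcases LowerSet.mem_sup_iff.1 hm with h' | h'
        · exact h h'
        · exact hy h'
    · apply Subtype.ext
      funext y
      rw [hg]
      change (if y ≤ a then χ.1 y else 0) + (if y ≤ a then 0 else χ.1 y) = χ.1 y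
      split_ifs
      · exact add_zero _
      · exact zero_add _
  let S : ShortComplex (ModuleCat (RR P)) := ShortComplex.mk (ModuleCat.ofHom f) (ModuleCat.ofHom g)
    (by
      ext1
      exact hex.linearMap_comp_eq_zero)
  have hS : S.ShortExact := ModuleCat.shortComplex_shortExact S hex hinj hsurj
  have h1 : HasProjectiveDimensionLT S.X₁ 1 := pd_Iic c
  have h2 : Projective S.X₂ := by
    have p1 := projective_Iic (V := V) a
    have p2 := projective_Iic (V := V) b
    exact (IsProjective.iff_projective (R := RR P)
      (sub (LowerSet.Iic a) V × sub (LowerSet.Iic b) V)).1 inferInstance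
  exact hS.hasProjectiveDimensionLT_X₃ 1 h1 inferInstance

/-- Modules concentrated at one vertex. -/
theorem pd_isotypic (N : Type) [AddCommGroup N] [Module (RR P) N] (x : P)
    (hN : ∀ (f : RR P) (n : N), f • n = (algebraMap ℚ (RR P) (f x x)) • n)
    (hx : (∀ y, ¬ y < x) ∨ (∃ m, ∀ y, y < x ↔ y ≤ m) ∨ (∃ a b c, (∀ y, y < x ↔ y ≤ a ∨ y ≤ b) ∧
      ∀ y, (y ≤ a ∧ y ≤ b) ↔ y ≤ c)) :
    HasProjectiveDimensionLT (ModuleCat.of (RR P) N) 3 := by
  classical
  let _ : Module ℚ N := Module.compHom N (algebraMap ℚ (RR P))
  have hN' : ∀ (f : RR P) (n : N), f • n = (f x x) • n := hN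
  have hle : LowerSet.Iio x ≤ LowerSet.Iic x := fun y (hy : y < x) => le_of_lt hy
  let f : sub (LowerSet.Iio x) N →ₗ[RR P] sub (LowerSet.Iic x) N := incl hle
  let g : sub (LowerSet.Iic x) N →ₗ[RR P] N :=
    { toFun := fun φ => φ.1 x
      map_add' := fun _ _ => rfl
      map_smul' := fun r φ => by
        change ∑ z, r x z • φ.1 z = r • φ.1 x
        rw [hN', Finset.sum_eq_single x]
        · intro z _ hz
          by_cases hxz : x ≤ z
          · rw [φ.2 z (fun h => hz (le_antisymm h hxz)), smul_zero]
          · rw [IncidenceAlgebra.apply_eq_zero_of_not_le hxz, zero_smul]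
        · intro h
          exact absurd (Finset.mem_univ x) h }
  have hex : Function.Exact f g := by
    intro φ
    constructor
    · intro h
      refine ⟨⟨φ.1, fun y hy => ?_⟩, Subtype.ext rfl⟩
      by_cases hyx : y = x
      · rw [hyx]
        exact h
      · exact φ.2 y fun h' => hy (lt_of_le_of_ne h' hyx)
    · rintro ⟨χ, hχ⟩
      rw [← hχ]
      exact χ.2 x (fun h => lt_irrefl x h)
  have hinj : Function.Injective f := Submodule.inclusion_injective _
  have hsurj : Function.Surjective g := fun n => ⟨gen x n, if_pos rfl⟩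
  let S : ShortComplex (ModuleCat (RR P)) := ShortComplex.mk (ModuleCat.ofHom f) (ModuleCat.ofHom g)
    (by
      ext1
      exact hex.linearMap_comp_eq_zero)
  have hS : S.ShortExact := ModuleCat.shortComplex_shortExact S hex hinj hsurj
  have h2 : Projective S.X₂ :=
    (IsProjective.iff_projective (R := RR P) (sub (LowerSet.Iic x) N)).1 (projective_Iic x)
  have h1 : HasProjectiveDimensionLT S.X₁ 2 := by
    rcases hx with hx | ⟨m, hm⟩ | ⟨a, b, c, hab, hc⟩
    · have : Subsingleton (sub (LowerSet.Iio x) N) := by
        refine ⟨fun φ ψ => Subtype.ext (funext fun y => ?_)⟩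
        rw [φ.2 y (hx y), ψ.2 y (hx y)]
      exact pd_of_subsingleton 2 _
    · have he : LowerSet.Iio x = LowerSet.Iic m := by
        ext y
        exact hm y
      have : HasProjectiveDimensionLT (ModuleCat.of (RR P) (sub (LowerSet.Iio x) N)) 1 := by
        rw [he]
        exact pd_Iic m
      exact hasProjectiveDimensionLT_of_ge _ 1 2 (by norm_num)
    · have he : LowerSet.Iio x = LowerSet.Iic a ⊔ LowerSet.Iic b := by
        ext y
        exact hab y
      change HasProjectiveDimensionLT (ModuleCat.of (RR P) (sub (LowerSet.Iio x) N)) 2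
      rw [he]
      exact pd_union a b c hc
  exact hS.hasProjectiveDimensionLT_X₃ 2 h1 inferInstance

/-- The idempotents. -/
def idem (x : P) : RR P where
  toFun := fun a c => if a = x ∧ c = x then 1 else 0
  eq_zero_of_not_le' := by
    intro a c h
    rw [if_neg]
    rintro ⟨rfl, rfl⟩
    exact h le_rfl

theorem sum_idem : ∑ x : P, idem x = (1 : RR P) := by
  ext a c _
  have h1 : (∑ x : P, idem x : RR P) a c = ∑ x : P, (idem x : RR P) a c := by
    have h2 : ∀ s : Finset P, (∑ x ∈ s, idem x : RR P) a c = ∑ x ∈ s, (idem x : RR P) a c := by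
      intro s
      induction s using Finset.induction_on with
      | empty => rfl
      | insert b s hb ih => rw [Finset.sum_insert hb, Finset.sum_insert hb, ← ih]; rfl
    exact h2 _
  rw [h1, IncidenceAlgebra.one_apply]
  change ∑ x : P, (if a = x ∧ c = x then (1 : ℚ) else 0) = _
  split_ifs with hac
  · subst hac
    simp
  · refine Finset.sum_eq_zero fun x _ => if_neg ?_
    rintro ⟨rfl, rfl⟩
    exact hac rfl

theorem idem_mul (y : P) (f : RR P) (a c : P) : (idem y * f) a c = if a = y then f a c else 0 := by
  rw [mul_apply']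
  change ∑ x, (if a = y ∧ x = y then (1 : ℚ) else 0) * f x c = _
  split_ifs with h
  · subst h
    simp
  · simp [h]

theorem mul_idem (y : P) (f : RR P) (a c : P) : (f * idem y) a c = if c = y then f a c else 0 := by
  rw [mul_apply']
  change ∑ x, f a x * (if x = y ∧ c = y then (1 : ℚ) else 0) = _
  split_ifs with h
  · subst h
    simp
  · simp [h]

theorem pd_all (hP : ∀ x : P, (∀ y, ¬ y < x) ∨ (∃ m, ∀ y, y < x ↔ y ≤ m) ∨
    (∃ a b c, (∀ y, y < x ↔ y ≤ a ∨ y ≤ b) ∧ ∀ y, (y ≤ a ∧ y ≤ b) ↔ y ≤ c)) :
    ∀ (S : Finset P) (M : Type) [AddCommGroup M] [Module (RR P) M],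
      (∀ x, x ∉ S → ∀ m : M, (idem x : RR P) • m = 0) →
      HasProjectiveDimensionLT (ModuleCat.of (RR P) M) 3 := by
  classical
  intro S
  induction S using Finset.strongInduction with
  | H S ih =>
    intro M _ _ hM
    rcases S.eq_empty_or_nonempty with rfl | hne
    · have : Subsingleton M := by
        refine ⟨fun m n => ?_⟩
        have h1 : ∀ m : M, m = 0 := by
          intro m
          rw [← one_smul (RR P) m, ← sum_idem, Finset.sum_smul]
          exact Finset.sum_eq_zero fun x _ => hM x (Finset.notMem_empty x) m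
        rw [h1 m, h1 n]
      exact pd_of_subsingleton 3 M
    · obtain ⟨x, hxS, hmin⟩ := S.exists_minimal hne
      have hmin' : ∀ y, y < x → y ∉ S := fun y hy hyS =>
        lt_irrefl y (lt_of_lt_of_le hy (hmin hyS hy.le))
      -- the action on the component at `x`
      have hact : ∀ (f : RR P) (m : M), f • ((idem x : RR P) • m) =
          (algebraMap ℚ (RR P) (f x x)) • ((idem x : RR P) • m) := by
        intro f m
        have h1 : (f * idem x) • m = ∑ y, (idem y * (f * idem x)) • m := by
          rw [← Finset.sum_smul, ← Finset.sum_mul, sum_idem, one_mul]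
        rw [smul_smul, smul_smul, h1, Finset.sum_eq_single x]
        · congr 1
          ext a c _
          rw [idem_mul, mul_idem]
          have h2 : (algebraMap ℚ (RR P) (f x x) * idem x) a c =
              if c = x then (if a = c then f x x else 0) else 0 := by
            rw [mul_idem]
            change (if c = x then (f x x • (1 : RR P)) a c else 0) = _
            rw [IncidenceAlgebra.constSMul_apply, IncidenceAlgebra.one_apply]
            simp
          rw [h2]
          by_cases hc : c = x
          · subst hc
            rw [if_pos rfl, if_pos rfl]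
            split_ifs with ha
            · rw [ha]
            · rfl
          · rw [if_neg hc, if_neg hc]
            simp
        · intro y _ hy
          by_cases hyx : y ≤ x
          · rw [mul_smul]
            exact hM y (hmin' y (lt_of_le_of_ne hyx hy)) _
          · have h2 : idem y * (f * idem x) = (0 : RR P) := by
              ext a c _
              rw [idem_mul, mul_idem]
              split_ifs with ha hc
              · rw [ha, hc, IncidenceAlgebra.apply_eq_zero_of_not_le hyx]
                rfl
              · rfl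
              · rfl
            rw [h2, zero_smul]
        · intro h
          exact absurd (Finset.mem_univ x) h
      let N : Submodule (RR P) M :=
        { carrier := {m | (idem x : RR P) • m = m}
          add_mem' := fun {m n} hm hn => by
            change (idem x : RR P) • (m + n) = m + n
            rw [smul_add, hm, hn]
          zero_mem' := smul_zero _
          smul_mem' := fun f m hm => by
            change (idem x : RR P) • (f • m) = f • m
            have hm' : (idem x : RR P) • m = m := hm
            have h1 := hact f m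
            have h2 := hact (idem x) m
            rw [hm'] at h1 h2
            rw [h1, ← mul_smul, ← Algebra.commutes, mul_smul, hm'] }
      have hidem : ∀ m : M, (idem x : RR P) • m ∈ N := by
        intro m
        change (idem x : RR P) • ((idem x : RR P) • m) = (idem x : RR P) • m
        rw [smul_smul]
        congr 1
        ext a c _
        rw [idem_mul]
        change (if a = x then (if a = x ∧ c = x then (1 : ℚ) else 0) else 0) =
          (if a = x ∧ c = x then (1 : ℚ) else 0)
        by_cases ha : a = x
        · rw [if_pos ha]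
        · rw [if_neg ha, if_neg fun h => ha h.1]
      have hNp : HasProjectiveDimensionLT (ModuleCat.of (RR P) N) 3 := by
        refine pd_isotypic N x (fun f n => Subtype.ext ?_) (hP x)
        have hn : (idem x : RR P) • (n : M) = n := n.2
        have h1 := hact f n
        rw [hn] at h1
        exact h1
      have hQp : HasProjectiveDimensionLT (ModuleCat.of (RR P) (M ⧸ N)) 3 := by
        refine ih (S.erase x) (Finset.erase_ssubset hxS) (M ⧸ N) fun y hy q => ?_
        obtain ⟨m, rfl⟩ := N.mkQ_surjective q
        rw [← map_smul]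
        by_cases hyx : y = x
        · subst hyx
          rw [Submodule.mkQ_apply, Submodule.Quotient.mk_eq_zero]
          exact hidem m
        · rw [hM y (fun h => hy (Finset.mem_erase.2 ⟨hyx, h⟩)) m, map_zero]
      let T : ShortComplex (ModuleCat (RR P)) := ShortComplex.mk (ModuleCat.ofHom N.subtype)
        (ModuleCat.ofHom N.mkQ) (by
          ext1
          exact (LinearMap.exact_subtype_mkQ N).linearMap_comp_eq_zero)
      have hT : T.ShortExact := ModuleCat.shortComplex_shortExact T
        (LinearMap.exact_subtype_mkQ N) N.injective_subtype N.mkQ_surjective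
      exact hT.hasProjectiveDimensionLT_X₂ 3 hNp hQp

end

end Q4.Orb
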