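import Mathlib

/-!
# The affine group of a field with eight elements
-/

namespace Q4.Orb

/-- The affine group of a field: the element `(a, b)` is the map `x ↦ a x + b`. -/
@[ext] structure Aff (K : Type) [Field K] : Type where
  a : Kˣ
  b : K

variable {K : Type} [Field K]

namespace Aff

instance : Mul (Aff K) := ⟨fun g h => ⟨g.a * h.a, g.a * h.b + g.b⟩⟩
instance : One (Aff K) := ⟨⟨1, 0⟩⟩
instance : Inv (Aff K) := ⟨fun g => ⟨g.a⁻¹, -((g.a⁻¹ : Kˣ) * g.b)⟩⟩

theorem mul_a (g h : Aff K) : (g * h).a = g.a * h.a := rfl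
theorem mul_b (g h : Aff K) : (g * h).b = g.a * h.b + g.b := rfl
theorem one_a : (1 : Aff K).a = 1 := rfl
theorem one_b : (1 : Aff K).b = 0 := rfl
theorem inv_a (g : Aff K) : (g⁻¹).a = g.a⁻¹ := rfl
theorem inv_b (g : Aff K) : (g⁻¹).b = -((g.a⁻¹ : Kˣ) * g.b) := rfl

instance : Group (Aff K) :=
  Group.ofLeftAxioms
    (fun g h k => Aff.ext (mul_assoc _ _ _) (by
      rw [mul_b, mul_b, mul_b, mul_b, mul_a]
      push_cast
      ring))
    (fun g => Aff.ext (one_mul _) (by
      rw [mul_b, one_a, one_b]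
      simp))
    (fun g => Aff.ext (inv_mul_cancel _) (by
      rw [mul_b, inv_a, inv_b, one_b]
      ring))

theorem conj_a (g h : Aff K) : (g * h * g⁻¹).a = h.a := by
  rw [mul_a, mul_a, inv_a, mul_comm g.a, mul_assoc, mul_inv_cancel, mul_one]

theorem conj_b (g h : Aff K) : (g * h * g⁻¹).b = g.a * h.b + (1 - h.a) * g.b := by
  rw [mul_b, mul_b, mul_a, inv_b]
  have h1 : ((g.a : Kˣ) : K) * ((g.a⁻¹ : Kˣ) : K) = 1 := by
    rw [← Units.val_mul, mul_inv_cancel, Units.val_one]
  push_cast
  push_cast at h1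
  linear_combination (-(h.a : K) * g.b) * h1

end Aff

open Aff

/-- The group of translations by the elements of a subgroup. -/
def tr (W : AddSubgroup K) : Subgroup (Aff K) where
  carrier := {g | g.a = 1 ∧ g.b ∈ W}
  one_mem' := ⟨rfl, W.zero_mem⟩
  mul_mem' := by
    rintro g h ⟨hg1, hg2⟩ ⟨hh1, hh2⟩
    refine ⟨by rw [mul_a, hg1, hh1, mul_one], ?_⟩
    rw [mul_b, hg1, Units.val_one, one_mul]
    exact W.add_mem hh2 hg2
  inv_mem' := by
    rintro g ⟨hg1, hg2⟩
    refine ⟨by rw [inv_a, hg1, inv_one], ?_⟩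
    rw [inv_b, hg1, inv_one, Units.val_one, one_mul]
    exact W.neg_mem hg2

theorem mem_tr {W : AddSubgroup K} {g : Aff K} : g ∈ tr W ↔ g.a = 1 ∧ g.b ∈ W := Iff.rfl

/-- The stabilizer of the origin. -/
def st : Subgroup (Aff K) where
  carrier := {g | g.b = 0}
  one_mem' := rfl
  mul_mem' := by
    intro g h hg hh
    have hg' : g.b = 0 := hg
    have hh' : h.b = 0 := hh
    change (g * h).b = 0
    rw [mul_b, hg', hh', mul_zero, add_zero]
  inv_mem' := by
    intro g hg
    have hg' : g.b = 0 := hg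
    change (g⁻¹).b = 0
    rw [inv_b, hg', mul_zero, neg_zero]

theorem mem_st {g : Aff K} : g ∈ (st : Subgroup (Aff K)) ↔ g.b = 0 := Iff.rfl

/-- The conjugate of a subgroup. -/
def cj {G : Type} [Group G] (g : G) (H : Subgroup G) : Subgroup G := H.map (MulAut.conj g).toMonoidHom

theorem mem_cj {G : Type} [Group G] {g x : G} {H : Subgroup G} :
    x ∈ cj g H ↔ g⁻¹ * x * g ∈ H := by
  constructor
  · rintro ⟨y, hy, rfl⟩
    change g⁻¹ * (g * y * g⁻¹) * g ∈ H
    have : g⁻¹ * (g * y * g⁻¹) * g = y := by group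
    rwa [this]
  · intro h
    refine ⟨g⁻¹ * x * g, h, ?_⟩
    change g * (g⁻¹ * x * g) * g⁻¹ = x
    group

theorem mem_cj_tr {g x : Aff K} {W : AddSubgroup K} :
    x ∈ cj g (tr W) ↔ x.a = 1 ∧ ((g.a⁻¹ : Kˣ) : K) * x.b ∈ W := by
  rw [mem_cj, mem_tr]
  have h1 : g⁻¹ * x * g = g⁻¹ * x * g⁻¹⁻¹ := by rw [inv_inv]
  rw [h1, conj_a, conj_b, inv_a]
  constructor
  · rintro ⟨h2, h3⟩
    refine ⟨h2, ?_⟩
    rwa [h2, Units.val_one, sub_self, zero_mul, add_zero] at h3
  · rintro ⟨h2, h3⟩
    refine ⟨h2, ?_⟩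
    rwa [h2, Units.val_one, sub_self, zero_mul, add_zero]

section Card

variable [Fintype K] (hK : Fintype.card K = 8)

include hK

theorem card_units : Nat.card Kˣ = 7 := by
  rw [Nat.card_units, Nat.card_eq_fintype_card, hK]

theorem unit_gen {u : Kˣ} (hu : u ≠ 1) (v : Kˣ) : ∃ n : ℤ, v = u ^ n := by
  have h1 : (Nat.card Kˣ).Prime := by rw [card_units hK]; norm_num
  have : Fact (Nat.card Kˣ).Prime := ⟨h1⟩
  have h2 : v ∈ Subgroup.zpowers u := mem_zpowers_of_prime_card rfl hu
  obtain ⟨n, hn⟩ := Subgroup.mem_zpowers_iff.1 h2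
  exact ⟨n, hn.symm⟩

/-- The classification of the subgroups. -/
theorem classify (H : Subgroup (Aff K)) :
    (∃ W : AddSubgroup K, H = tr W) ∨ (∃ g : Aff K, H = cj g st) ∨ H = ⊤ := by
  by_cases h1 : ∀ g ∈ H, g.a = 1
  · left
    refine ⟨{ carrier := {b | (⟨1, b⟩ : Aff K) ∈ H}
              zero_mem' := H.one_mem
              add_mem' := fun {x y} hx hy => by
                have h2 : (⟨1, x⟩ : Aff K) * ⟨1, y⟩ = ⟨1, x + y⟩ := by
                  refine Aff.ext (mul_one _) ?_
                  rw [mul_b]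
                  simp [add_comm]
                change (⟨1, x + y⟩ : Aff K) ∈ H
                rw [← h2]
                exact H.mul_mem hx hy
              neg_mem' := fun {x} hx => by
                have h2 : (⟨1, x⟩ : Aff K)⁻¹ = ⟨1, -x⟩ := by
                  refine Aff.ext inv_one ?_
                  rw [inv_b]
                  simp
                change (⟨1, -x⟩ : Aff K) ∈ H
                rw [← h2]
                exact H.inv_mem hx }, ?_⟩
    ext g
    constructor
    · intro hg
      refine ⟨h1 g hg, ?_⟩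
      change (⟨1, g.b⟩ : Aff K) ∈ H
      rw [← h1 g hg]
      exact hg
    · rintro ⟨hg1, hg2⟩
      change (⟨1, g.b⟩ : Aff K) ∈ H at hg2
      rw [← hg1] at hg2
      exact hg2
  · push Not at h1
    obtain ⟨g, hg, hga⟩ := h1
    right
    -- the fixed point
    have hne : (1 : K) - g.a ≠ 0 := by
      intro h
      apply hga
      exact Units.ext (sub_eq_zero.1 h).symm
    set c : K := g.b / (1 - g.a) with hc
    let τ : Aff K := ⟨1, c⟩
    -- the subgroup moved to the origin
    let H' : Subgroup (Aff K) := cj τ⁻¹ H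
    have hH : H = cj τ H' := by
      ext x
      rw [mem_cj, mem_cj]
      have : τ⁻¹⁻¹ * (τ⁻¹ * x * τ) * τ⁻¹ = x := by group
      rw [this]
    have hgm : (⟨g.a, 0⟩ : Aff K) ∈ H' := by
      rw [mem_cj]
      have h2 : τ⁻¹⁻¹ * ⟨g.a, 0⟩ * τ⁻¹ = g := by
        rw [inv_inv]
        refine Aff.ext (conj_a _ _) ?_
        rw [conj_b]
        change (1 : K) * 0 + (1 - g.a) * c = g.b
        rw [hc]
        field_simp
        ring
      rw [h2]
      exact hg
    have hall : ∀ u : Kˣ, (⟨u, 0⟩ : Aff K) ∈ H' := by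
      intro u
      obtain ⟨n, hn⟩ := unit_gen hK hga u
      have h2 : ∀ n : ℤ, (⟨g.a, 0⟩ : Aff K) ^ n = ⟨g.a ^ n, 0⟩ := by
        let F : Kˣ →* Aff K :=
          { toFun := fun u => ⟨u, 0⟩
            map_one' := rfl
            map_mul' := fun u v => Aff.ext rfl (by
              rw [mul_b]
              simp) }
        intro n
        exact (map_zpow F g.a n).symm
      rw [hn, ← h2]
      exact H'.zpow_mem hgm n
    by_cases hT : ∃ x : K, x ≠ 0 ∧ (⟨1, x⟩ : Aff K) ∈ H'
    · right
      obtain ⟨x, hx0, hx⟩ := hT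
      have htrans : ∀ y : K, (⟨1, y⟩ : Aff K) ∈ H' := by
        intro y
        by_cases hy : y = 0
        · rw [hy]
          exact H'.one_mem
        · have h2 := H'.mul_mem (H'.mul_mem (hall (Units.mk0 (y / x) (div_ne_zero hy hx0))) hx)
            (H'.inv_mem (hall (Units.mk0 (y / x) (div_ne_zero hy hx0))))
          have h3 : (⟨Units.mk0 (y / x) (div_ne_zero hy hx0), 0⟩ : Aff K) * ⟨1, x⟩ *
              (⟨Units.mk0 (y / x) (div_ne_zero hy hx0), 0⟩ : Aff K)⁻¹ = ⟨1, y⟩ := by
            refine Aff.ext (conj_a _ _) ?_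
            rw [conj_b]
            change y / x * x + (1 - ((1 : Kˣ) : K)) * 0 = y
            rw [mul_zero, add_zero, div_mul_cancel₀ _ hx0]
          rw [h3] at h2
          exact h2
      have hH' : H' = ⊤ := by
        rw [eq_top_iff]
        intro z _
        have h2 := H'.mul_mem (htrans z.b) (hall z.a)
        have h3 : (⟨1, z.b⟩ : Aff K) * ⟨z.a, 0⟩ = z := by
          refine Aff.ext (one_mul _) ?_
          rw [mul_b]
          simp
        rwa [h3] at h2
      rw [hH, hH']
      ext x
      rw [mem_cj]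
      simp
    · left
      push Not at hT
      refine ⟨τ, ?_⟩
      rw [hH]
      congr 1
      ext z
      rw [mem_st]
      constructor
      · intro hz
        by_contra hzb
        have h2 := H'.mul_mem hz (hall z.a⁻¹)
        have h3 : z * (⟨z.a⁻¹, 0⟩ : Aff K) = ⟨1, z.b⟩ := by
          refine Aff.ext (mul_inv_cancel _) ?_
          rw [mul_b]
          simp
        rw [h3] at h2
        exact hT z.b hzb h2
      · intro hz
        have h2 := hall z.a
        have h3 : z = ⟨z.a, 0⟩ := Aff.ext rfl hz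
        rw [h3]
        exact h2

theorem card_dvd (W : AddSubgroup K) : Nat.card W ∣ 8 := by
  have h1 := W.card_addSubgroup_dvd_card
  rwa [Nat.card_eq_fintype_card (α := K), hK] at h1

/-- A subgroup of the additive group can be moved into any subgroup which is at least as large. -/
theorem move (W W' : AddSubgroup K) (h : Nat.card W ≤ Nat.card W') :
    ∃ u : Kˣ, ∀ w ∈ W, (u : K) * w ∈ W' := by
  classical
  have hd := card_dvd hK W
  have hd' := card_dvd hK W'
  have hW : Nat.card W ∈ Nat.divisors 8 := Nat.mem_divisors.2 ⟨hd, by norm_num⟩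
  have hW' : Nat.card W' ∈ Nat.divisors 8 := Nat.mem_divisors.2 ⟨hd', by norm_num⟩
  have hdiv : Nat.divisors 8 = {1, 2, 4, 8} := by decide
  rw [hdiv] at hW hW'
  simp only [Finset.mem_insert, Finset.mem_singleton] at hW hW'
  by_cases h8 : Nat.card W' = 8
  · have : W' = ⊤ := by
      apply AddSubgroup.eq_top_of_card_eq
      rw [h8, Nat.card_eq_fintype_card (α := K), hK]
    exact ⟨1, fun w _ => by rw [this]; exact AddSubgroup.mem_top _⟩
  by_cases h1 : Nat.card W = 1
  · have : W = ⊥ := AddSubgroup.eq_bot_of_card_eq W h1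
    refine ⟨1, fun w hw => ?_⟩
    rw [this, AddSubgroup.mem_bot] at hw
    rw [hw, mul_zero]
    exact W'.zero_mem
  -- nonzero elements
  have hne' : ∃ y ∈ W', y ≠ 0 := by
    by_contra hcon
    push Not at hcon
    have h2 : W' = ⊥ := (AddSubgroup.eq_bot_iff_forall _).2 hcon
    rw [h2, AddSubgroup.card_bot] at h
    omega
  obtain ⟨y, hy, hy0⟩ := hne'
  by_cases h2 : Nat.card W = 2
  · obtain ⟨x, hx⟩ := (Nat.card_eq_two_iff' (0 : W)).1 h2
    have hx0 : (x : K) ≠ 0 := fun hx0 => hx.1 (Subtype.ext hx0)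
    refine ⟨Units.mk0 (y / x) (div_ne_zero hy0 hx0), fun w hw => ?_⟩
    by_cases hw0 : w = 0
    · rw [hw0, mul_zero]
      exact W'.zero_mem
    · have h3 : (⟨w, hw⟩ : W) = x := hx.2 _ fun h4 => hw0 (congrArg Subtype.val h4)
      have h5 : w = x := congrArg Subtype.val h3
      rw [Units.val_mk0, h5, div_mul_cancel₀ _ hx0]
      exact hy
  · have h4 : Nat.card W = 4 := by omega
    have h4' : Nat.card W' = 4 := by omega
    -- pigeonhole
    have hcardF : ∀ U : AddSubgroup K, Nat.card U = 4 →
        (((Finset.univ.filter fun x => x ∈ U).erase 0) : Finset K).card = 3 := by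
      intro U hU
      rw [Finset.card_erase_of_mem (by simp [U.zero_mem])]
      have h5 : (Finset.univ.filter fun x => x ∈ U).card = 4 := by
        rw [← hU, Nat.card_eq_fintype_card, Fintype.card_subtype]
      rw [h5]
    let S := ((Finset.univ.filter fun x => x ∈ W).erase 0) ×ˢ
      ((Finset.univ.filter fun x => x ∈ W').erase 0)
    have hS : S.card = 9 := by
      rw [Finset.card_product, hcardF W h4, hcardF W' h4']
    obtain ⟨p, hp, q, hq, hpq, hf⟩ := Finset.exists_ne_map_eq_of_card_lt_of_maps_to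
      (s := S) (t := (Finset.univ.erase (0 : K))) (f := fun p => p.2 / p.1) (by
        rw [hS, Finset.card_erase_of_mem (Finset.mem_univ _), Finset.card_univ, hK]
        norm_num) (by
        intro p hp
        simp only [S, Finset.coe_product, Set.mem_prod, Finset.mem_coe, Finset.mem_erase,
          Finset.mem_filter] at hp
        simp only [Finset.coe_erase, Finset.coe_univ, Set.mem_sdiff, Set.mem_univ,
          Set.mem_singleton_iff, true_and]
        exact div_ne_zero hp.2.1 hp.1.1)
    simp only [S, Finset.mem_product, Finset.mem_erase, Finset.mem_filter, Finset.mem_univ,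
      true_and] at hp hq
    obtain ⟨⟨hp10, hp1⟩, hp20, hp2⟩ := hp
    obtain ⟨⟨hq10, hq1⟩, hq20, hq2⟩ := hq
    change p.2 / p.1 = q.2 / q.1 at hf
    have hne : p.1 ≠ q.1 := by
      intro h5
      apply hpq
      refine Prod.ext h5 ?_
      rw [h5] at hf
      exact (div_left_inj' hq10).1 hf
    refine ⟨Units.mk0 (p.2 / p.1) (div_ne_zero hp20 hp10), ?_⟩
    rw [Units.val_mk0]
    let U : AddSubgroup K := W ⊓ W'.comap (AddMonoidHom.mulLeft (p.2 / p.1))
    have hUW : U ≤ W := inf_le_left
    have hp1U : p.1 ∈ U := by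
      refine ⟨hp1, ?_⟩
      change p.2 / p.1 * p.1 ∈ W'
      rw [div_mul_cancel₀ _ hp10]
      exact hp2
    have hq1U : q.1 ∈ U := by
      refine ⟨hq1, ?_⟩
      change p.2 / p.1 * q.1 ∈ W'
      rw [hf, div_mul_cancel₀ _ hq10]
      exact hq2
    have h5 : Nat.card U ∣ 4 := by
      rw [← h4]
      exact AddSubgroup.card_dvd_of_le hUW
    have h6 : 3 ≤ Nat.card U := by
      have h7 : ({0, p.1, q.1} : Finset K).card = 3 := by
        rw [Finset.card_eq_three]
        exact ⟨0, p.1, q.1, hp10.symm, hq10.symm, hne, rfl⟩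
      have h8 : Nat.card U = (Finset.univ.filter fun x => x ∈ U).card := by
        rw [Nat.card_eq_fintype_card, Fintype.card_subtype]
      rw [h8, ← h7]
      refine Finset.card_le_card ?_
      intro x hx
      simp only [Finset.mem_insert, Finset.mem_singleton] at hx
      rw [Finset.mem_filter]
      refine ⟨Finset.mem_univ _, ?_⟩
      rcases hx with rfl | rfl | rfl
      · exact U.zero_mem
      · exact hp1U
      · exact hq1U
    have h7 : Nat.card U = 4 := by
      have h8 := Nat.le_of_dvd (by norm_num) h5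
      interval_cases hU : Nat.card U
      · norm_num at h5
      · rfl
    have h8 : U = W := AddSubgroup.eq_of_le_of_card_ge hUW (by rw [h7, h4])
    intro w hw
    rw [← h8] at hw
    exact hw.2

end Card

end Q4.Orb
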