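import Pool.Agent.Q4.Orb.Enough

/-!
# A lower bound for a projective dimension over the Boolean lattice of rank three
-/

open CategoryTheory Opposite Limits

namespace Q4.Orb

/-- The Boolean lattice. -/
abbrev BL : Type := Finset (Fin 3)

/-- The category of functors. -/
abbrev FB : Type 1 := BLᵒᵖ ⥤ ModuleCat.{0} ℚ

section

variable {M : Type} [AddCommGroup M] [Module ℚ M]

/-- The functor defined by an antitone family of submodules. -/
def subF (N : BL → Submodule ℚ M) (hN : ∀ s t, s ≤ t → N t ≤ N s) : FB where
  obj s := ModuleCat.of ℚ (N s.unop)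
  map f := ModuleCat.ofHom (Submodule.inclusion (hN _ _ (leOfHom f.unop)))
  map_id _ := rfl
  map_comp _ _ := rfl

variable {N : BL → Submodule ℚ M} {hN : ∀ s t, s ≤ t → N t ≤ N s}

end

section Free

variable (ι : Type) [Fintype ι] [DecidableEq ι] (a : ι → BL) (V : Type) [AddCommGroup V] [Module ℚ V]

/-- The family of submodules of a free functor. -/
def frN (s : BL) : Submodule ℚ (ι → V) where
  carrier := {φ | ∀ i, ¬ s ≤ a i → φ i = 0}
  add_mem' := by
    intro φ ψ hφ hψ i hi
    rw [Pi.add_apply, hφ i hi, hψ i hi, add_zero]
  zero_mem' := fun _ _ => rfl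
  smul_mem' := by
    intro c φ hφ i hi
    rw [Pi.smul_apply, hφ i hi, smul_zero]

theorem frN_anti (s t : BL) (h : s ≤ t) : frN ι a V t ≤ frN ι a V s :=
  fun _ hφ i hi => hφ i fun hi' => hi (h.trans hi')

/-- The free functor with generators in positions `a i`. -/
def frF : FB := subF (frN ι a V) (frN_anti ι a V)

/-- The generators. -/
def frG (s : BL) (i : ι) (hi : s ≤ a i) : V →ₗ[ℚ] frN ι a V s :=
  (LinearMap.single ℚ (fun _ : ι => V) i).codRestrict (frN ι a V s) fun v k hk => by
    rw [LinearMap.single_apply, Pi.single_eq_of_ne]
    rintro rfl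
    exact hk hi

theorem frF_sum (s : BL) (φ : frN ι a V s) :
    φ = ∑ i, if h : s ≤ a i then frG ι a V s i h (φ.1 i) else 0 := by
  apply Subtype.ext
  funext k
  rw [Submodule.coe_sum, Finset.sum_apply, Finset.sum_eq_single k]
  · split_ifs with h
    · change _ = (Pi.single k (φ.1 k) : ι → V) k
      rw [Pi.single_eq_same]
    · exact φ.2 k h
  · intro i _ hi
    split_ifs with h
    · change (Pi.single i (φ.1 i) : ι → V) k = 0
      rw [Pi.single_eq_of_ne hi.symm]
    · rfl
  · intro h
    exact absurd (Finset.mem_univ k) h

theorem projective_frF : Projective (frF ι a V) where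
  factors {E F} f e _ := by
    -- the values on generators
    let f0 : ∀ i, V →ₗ[ℚ] F.obj (op (a i)) := fun i =>
      (f.app (op (a i))).hom ∘ₗ (frG ι a V (a i) i le_rfl)
    have hlift : ∀ i, ∃ g : V →ₗ[ℚ] E.obj (op (a i)), (e.app (op (a i))).hom ∘ₗ g = f0 i :=
      fun i => Module.projective_lifting_property _ _ (surj_of_epi e (op (a i)))
    choose g hg using hlift
    have hnat : ∀ {X Y : FB} (α : X ⟶ Y) {s t : BLᵒᵖ} (u : s ⟶ t) (x : X.obj s),
        α.app t (X.map u x) = Y.map u (α.app s x) := by
      intro X Y α s t u x
      exact congrArg (fun t => t x) (congrArg ModuleCat.Hom.hom (α.naturality u))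
    have hmap : ∀ {X : FB} {s t r : BLᵒᵖ} (u : s ⟶ t) (v : t ⟶ r) (w : s ⟶ r) (x : X.obj s),
        X.map v (X.map u x) = X.map w x := by
      intro X s t r u v w x
      have h1 : w = u ≫ v := Subsingleton.elim _ _
      rw [h1, X.map_comp]
      rfl
    let G : frF ι a V ⟶ E :=
      { app := fun s => ModuleCat.ofHom
          { toFun := fun φ : frN ι a V s.unop => ∑ i, if h : s.unop ≤ a i then
              E.map (homOfLE h).op (g i (φ.1 i)) else 0
            map_add' := fun φ ψ => by
              rw [← Finset.sum_add_distrib]
              refine Finset.sum_congr rfl fun i _ => ?_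
              split_ifs with h
              · change E.map (homOfLE h).op (g i (φ.1 i + ψ.1 i)) = _
                rw [map_add, map_add]
              · rw [add_zero]
            map_smul' := fun c φ => by
              rw [RingHom.id_apply, Finset.smul_sum]
              refine Finset.sum_congr rfl fun i _ => ?_
              split_ifs with h
              · change E.map (homOfLE h).op (g i (c • φ.1 i)) = _
                rw [map_smul, map_smul]
              · rw [smul_zero] }
        naturality := fun s t u => by
          refine ModuleCat.hom_ext (LinearMap.ext fun φ => ?_)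
          change (∑ i, if h : t.unop ≤ a i then E.map (homOfLE h).op (g i
            ((φ : frN ι a V s.unop).1 i)) else 0) = E.map u (∑ i, if h : s.unop ≤ a i then
              E.map (homOfLE h).op (g i ((φ : frN ι a V s.unop).1 i)) else 0)
          rw [map_sum]
          refine Finset.sum_congr rfl fun i _ => ?_
          by_cases hs : s.unop ≤ a i
          · have ht : t.unop ≤ a i := (leOfHom u.unop).trans hs
            rw [dif_pos hs, dif_pos ht]
            exact (hmap _ _ _ _).symm
          · rw [dif_neg hs, map_zero]
            split_ifs with ht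
            · have h0 : (φ : frN ι a V s.unop).1 i = 0 := (φ : frN ι a V s.unop).2 i hs
              rw [h0, map_zero, map_zero]
            · rfl }
    refine ⟨G, NatTrans.ext (funext fun s => ModuleCat.hom_ext (LinearMap.ext fun φ => ?_))⟩
    change e.app s (∑ i, if h : s.unop ≤ a i then
              E.map (homOfLE h).op (g i ((φ : frN ι a V s.unop).1 i)) else 0) = f.app s φ
    have h1 := frF_sum ι a V s.unop φ
    have h2 : f.app s φ = ∑ i, if h : s.unop ≤ a i then
        F.map (homOfLE h).op (f0 i ((φ : frN ι a V s.unop).1 i)) else 0 := by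
      have h3 : f.app s φ = f.app s (∑ i, if h : s.unop ≤ a i then
        frG ι a V s.unop i h ((φ : frN ι a V s.unop).1 i) else 0 : frN ι a V s.unop) :=
          congrArg (fun x : frN ι a V s.unop => f.app s x) h1
      let L : frN ι a V s.unop →ₗ[ℚ] F.obj s := (f.app s).hom
      have h5 : ∀ x : frN ι a V s.unop, f.app s x = L x := fun _ => rfl
      rw [h3, h5, map_sum]
      refine Finset.sum_congr rfl fun i _ => ?_
      split_ifs with h
      · have h4 := hnat f (homOfLE h).op (frG ι a V (a i) i le_rfl ((φ : frN ι a V s.unop).1 i) :
          frN ι a V (a i))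
        exact h4
      · exact map_zero L
    rw [h2, map_sum]
    refine Finset.sum_congr rfl fun i _ => ?_
    split_ifs with h
    · rw [hnat e]
      congr 1
      exact LinearMap.congr_fun (hg i) _
    · exact map_zero _

end Free

end Q4.Orb
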