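import Pool.Agent.Q4.Orb.Res

/-!
# A lower bound for the global dimension of the category of coefficient systems
-/

open CategoryTheory Opposite Limits

namespace Q4.Orb

variable {G : Type} [Group G]

/-- The functions on the fixed points. -/
def IA0 (A : Orbit G) : Coef G where
  obj K := ModuleCat.of ℚ ((A ⟶ K.unop) → ℚ)
  map φ := ModuleCat.ofHom (LinearMap.funLeft ℚ ℚ fun g => g ≫ φ.unop)
  map_id _ := rfl
  map_comp _ _ := rfl

theorem not_pd_coef (e : Fin 3 → G)
    (he : ∀ s : BL, s ≠ Finset.univ → IsEmpty ((uu e).obj Finset.univ ⟶ (uu e).obj s)) :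
    ¬ HasProjectiveDimensionLT (IA0 ((uu e).obj Finset.univ)) 3 := by
  intro h
  have h1 : HasProjectiveDimensionLT ((Res e).obj (IA0 ((uu e).obj Finset.univ))) 3 := by
    have : PreservesFiniteLimits (Res e) := by
      unfold Res
      infer_instance
    have : PreservesFiniteColimits (Res e) := by
      unfold Res
      infer_instance
    have : (Res e).Additive := ⟨fun {_ _ _ _} => rfl⟩
    exact pd_map (Res e) (res_projective e) 2 _ h
  refine not_pd _ (fun s hs => ?_) ?_ h1
  · have := he s hs
    change Subsingleton (((uu e).obj Finset.univ ⟶ (uu e).obj s) → ℚ)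
    infer_instance
  · have : Nonempty ((uu e).obj (Finset.univ : BL) ⟶ (uu e).obj (Finset.univ : BL)) := ⟨𝟙 _⟩
    change Nontrivial (((uu e).obj Finset.univ ⟶ (uu e).obj Finset.univ) → ℚ)
    infer_instance

end Q4.Orb
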