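import Pool.Agent.Q4.Orb.Aff
import Pool.Agent.Q4.Orb.IA
import Pool.Agent.Q4.Orb.CoefBound

/-!
# The poset of conjugacy classes of subgroups
-/

open CategoryTheory Opposite Limits

namespace Q4.Orb

/-- Conjugacy of subgroups. -/
def conjSetoid (G : Type) [Group G] : Setoid (Subgroup G) where
  r H K := ∃ g : G, H = cj g K
  iseqv :=
    { refl := fun H => ⟨1, by ext x; rw [mem_cj]; simp⟩
      symm := by
        rintro H K ⟨g, rfl⟩
        refine ⟨g⁻¹, ?_⟩
        ext x
        rw [mem_cj, mem_cj]
        have : g⁻¹ * (g⁻¹⁻¹ * x * g⁻¹) * g = x := by group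
        rw [this]
      trans := by
        rintro H K L ⟨g, rfl⟩ ⟨h, rfl⟩
        refine ⟨g * h, ?_⟩
        ext x
        rw [mem_cj, mem_cj, mem_cj]
        have : h⁻¹ * (g⁻¹ * x * g) * h = (g * h)⁻¹ * x * (g * h) := by group
        rw [this] }

/-- The set `Sub_G / G` of conjugacy classes of subgroups. -/
def SubClass (G : Type) [Group G] : Type := Quotient (conjSetoid G)

/-- The conjugacy class of a subgroup. -/
def SubClass.mk {G : Type} [Group G] (H : Subgroup G) : SubClass G := Quotient.mk (conjSetoid G) H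

theorem cj_mono {G : Type} [Group G] {g : G} {H K : Subgroup G} (h : H ≤ K) : cj g H ≤ cj g K :=
  Subgroup.map_mono h

theorem cj_cj {G : Type} [Group G] (g h : G) (H : Subgroup G) : cj g (cj h H) = cj (g * h) H := by
  ext x
  rw [mem_cj, mem_cj, mem_cj]
  have : h⁻¹ * (g⁻¹ * x * g) * h = (g * h)⁻¹ * x * (g * h) := by group
  rw [this]

theorem cj_one {G : Type} [Group G] (H : Subgroup G) : cj 1 H = H := by
  ext x
  rw [mem_cj]
  simp

theorem card_cj {G : Type} [Group G] (g : G) (H : Subgroup G) : Nat.card (cj g H) = Nat.card H :=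
  Subgroup.card_map_of_injective (MulAut.conj g).injective

/-- The order relation: `(H) ≤ (K)` if and only if `H ≤ g K g⁻¹` for some `g ∈ G`. -/
def SubClass.le {G : Type} [Group G] : SubClass G → SubClass G → Prop :=
  Quotient.lift₂ (fun H K => ∃ g : G, H ≤ cj g K) (by
    rintro H K H' K' ⟨g, rfl⟩ ⟨h, rfl⟩
    apply propext
    constructor
    · rintro ⟨x, hx⟩
      refine ⟨g⁻¹ * x * h, ?_⟩
      have h1 := cj_mono (g := g⁻¹) hx
      rw [cj_cj, cj_cj, cj_cj, inv_mul_cancel, cj_one] at h1
      exact h1
    · rintro ⟨x, hx⟩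
      refine ⟨g * x * h⁻¹, ?_⟩
      have h1 := cj_mono (g := g) hx
      rw [cj_cj] at h1
      rw [cj_cj, mul_assoc, inv_mul_cancel, mul_one]
      exact h1)

instance SubClass.partialOrder {G : Type} [Group G] [Finite G] : PartialOrder (SubClass G) where
  le := SubClass.le
  le_refl x := by
    induction x using Quotient.inductionOn with
    | h H => exact ⟨1, by rw [cj_one]⟩
  le_trans x y z := by
    induction x using Quotient.inductionOn with
    | h H =>
      induction y using Quotient.inductionOn with
      | h K =>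
        induction z using Quotient.inductionOn with
        | h L =>
          rintro ⟨g, hg⟩ ⟨h, hh⟩
          exact ⟨g * h, hg.trans (by rw [← cj_cj]; exact cj_mono hh)⟩
  le_antisymm x y := by
    induction x using Quotient.inductionOn with
    | h H =>
      induction y using Quotient.inductionOn with
      | h K =>
        rintro ⟨g, hg⟩ ⟨h, hh⟩
        refine Quotient.sound ⟨g, ?_⟩
        have h1 : Nat.card K ≤ Nat.card H := by
          rw [← card_cj h H]
          exact Nat.card_le_card_of_injective _ (Subgroup.inclusion_injective hh)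
        have h2 : Nat.card (cj g K) ≤ Nat.card H := by rw [card_cj]; exact h1
        exact Subgroup.eq_of_le_of_card_ge hg h2

noncomputable instance {G : Type} [Group G] [Finite G] : Fintype (SubClass G) :=
  have : Finite (SubClass G) := inferInstanceAs (Finite (Quotient (conjSetoid G)))
  Fintype.ofFinite _

noncomputable instance SubClass.decEq {G : Type} [Group G] : DecidableEq (SubClass G) :=
  Classical.decEq _

open Classical in
noncomputable instance SubClass.locallyFinite {G : Type} [Group G] [Finite G] :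
    LocallyFiniteOrder (SubClass G) := Fintype.toLocallyFiniteOrder

theorem mk_le {G : Type} [Group G] [Finite G] {H K : Subgroup G} :
    SubClass.mk H ≤ SubClass.mk K ↔ ∃ g : G, H ≤ cj g K := Iff.rfl

theorem mk_cj {G : Type} [Group G] (g : G) (H : Subgroup G) :
    SubClass.mk (cj g H) = SubClass.mk H := Quotient.sound ⟨g, rfl⟩

section Field

variable {K : Type} [Field K] [Fintype K] (hK : Fintype.card K = 8)

instance : Finite (Aff K) := by
  refine Finite.of_injective (fun g : Aff K => (g.a, g.b)) fun g h hgh => ?_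
  exact Aff.ext (congrArg Prod.fst hgh) (congrArg Prod.snd hgh)

include hK

theorem exists_ne_one : ∃ u : Kˣ, u ≠ 1 := by
  by_contra hcon
  push Not at hcon
  have h1 := card_units hK
  have : Subsingleton Kˣ := ⟨fun u v => by rw [hcon u, hcon v]⟩
  have h2 := Finite.card_le_one_iff_subsingleton (α := Kˣ) |>.2 this
  omega

theorem tr_of {H : Subgroup (Aff K)} (h : ∀ g ∈ H, g.a = 1) : ∃ W : AddSubgroup K, H = tr W := by
  obtain ⟨u, hu⟩ := exists_ne_one hK
  rcases classify hK H with h1 | ⟨g, hg⟩ | h1
  · exact h1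
  · exfalso
    have h2 : g * ⟨u, 0⟩ * g⁻¹ ∈ H := by
      rw [hg, mem_cj]
      have h3 : g⁻¹ * (g * ⟨u, 0⟩ * g⁻¹) * g = ⟨u, 0⟩ := by group
      rw [h3]
      rfl
    have h3 := h _ h2
    rw [Aff.conj_a] at h3
    exact hu h3
  · exfalso
    exact hu (h ⟨u, 0⟩ (by rw [h1]; exact Subgroup.mem_top _))

theorem le_tr {W W' : AddSubgroup K} (h : Nat.card W' ≤ Nat.card W) :
    SubClass.mk (tr W') ≤ SubClass.mk (tr W) := by
  obtain ⟨u, hu⟩ := move hK W' W h
  refine mk_le.2 ⟨⟨u⁻¹, 0⟩, fun x hx => ?_⟩
  rw [mem_cj_tr]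
  refine ⟨hx.1, ?_⟩
  rw [inv_inv]
  exact hu _ hx.2

omit hK in
theorem card_of_le {W W' : AddSubgroup K} (h : SubClass.mk (tr W') ≤ SubClass.mk (tr W)) :
    Nat.card W' ≤ Nat.card W := by
  obtain ⟨g, hg⟩ := mk_le.1 h
  have h1 : ∀ w ∈ W', ((g.a⁻¹ : Kˣ) : K) * w ∈ W := by
    intro w hw
    have h2 : (⟨1, w⟩ : Aff K) ∈ tr W' := ⟨rfl, hw⟩
    exact (mem_cj_tr.1 (hg h2)).2
  refine Nat.card_le_card_of_injective (fun w : W' => (⟨((g.a⁻¹ : Kˣ) : K) * w, h1 w w.2⟩ : W)) ?_
  intro v w hvw
  have h2 := congrArg Subtype.val hvw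
  exact Subtype.ext (mul_left_cancel₀ (Units.ne_zero _) h2)

theorem below_tr {W : AddSubgroup K} {y : SubClass (Aff K)} (h : y ≤ SubClass.mk (tr W)) :
    ∃ W', y = SubClass.mk (tr W') := by
  induction y using Quotient.inductionOn with
  | h H =>
    obtain ⟨g, hg⟩ := mk_le.1 h
    obtain ⟨W', hW'⟩ := tr_of hK (H := H) fun x hx => (mem_cj_tr.1 (hg hx)).1
    exact ⟨W', by rw [hW']; rfl⟩

theorem lt_tr_iff {W : AddSubgroup K} {y : SubClass (Aff K)} :
    y < SubClass.mk (tr W) ↔ ∃ W' : AddSubgroup K, y = SubClass.mk (tr W') ∧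
      Nat.card W' < Nat.card W := by
  constructor
  · intro h
    obtain ⟨W', rfl⟩ := below_tr hK h.le
    refine ⟨W', rfl, lt_of_not_ge fun h1 => ?_⟩
    exact not_le_of_gt h (le_tr hK h1)
  · rintro ⟨W', rfl, h⟩
    refine lt_of_le_of_ne (le_tr hK h.le) fun h1 => ?_
    have h2 := card_of_le h1.ge
    omega

omit hK in
theorem below_bot {y : SubClass (Aff K)} : y ≤ SubClass.mk ⊥ ↔ y = SubClass.mk ⊥ := by
  constructor
  · intro h
    induction y using Quotient.inductionOn with
    | h H =>
      obtain ⟨g, hg⟩ := mk_le.1 h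
      have h1 : H = ⊥ := by
        rw [Subgroup.eq_bot_iff_forall]
        intro x hx
        have h2 := hg hx
        rw [mem_cj, Subgroup.mem_bot] at h2
        have h3 : x = g * (g⁻¹ * x * g) * g⁻¹ := by group
        rw [h3, h2]
        group
      rw [h1]
      rfl
  · rintro rfl
    exact le_rfl

theorem card_st : Nat.card (st : Subgroup (Aff K)) = 7 := by
  rw [← card_units hK]
  refine Nat.card_congr ⟨fun g => g.1.a, fun u => ⟨⟨u, 0⟩, rfl⟩, fun g => ?_, fun u => rfl⟩
  exact Subtype.ext (Aff.ext rfl g.2.symm)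

omit hK in
theorem mem_cj_st {g x : Aff K} (hx : x.a = 1) (h : x ∈ cj g st) : x = 1 := by
  rw [mem_cj, mem_st] at h
  have h1 : g⁻¹ * x * g = g⁻¹ * x * g⁻¹⁻¹ := by rw [inv_inv]
  rw [h1, Aff.conj_b, hx, Units.val_one, sub_self, zero_mul, add_zero] at h
  exact Aff.ext hx ((mul_eq_zero.1 h).resolve_left (Units.ne_zero _))

theorem hasse (x : SubClass (Aff K)) : (∀ y, ¬ y < x) ∨ (∃ m, ∀ y, y < x ↔ y ≤ m) ∨
    (∃ a b c, (∀ y, y < x ↔ y ≤ a ∨ y ≤ b) ∧ ∀ y, (y ≤ a ∧ y ≤ b) ↔ y ≤ c) := by
  induction x using Quotient.inductionOn with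
  | h H =>
    rcases classify hK H with ⟨W, hW⟩ | ⟨g, hg⟩ | h
    · subst hW
      by_cases hne : {W' : AddSubgroup K | Nat.card W' < Nat.card W}.Nonempty
      · right
        left
        obtain ⟨Wm, hWm, hmax⟩ := Set.exists_max_image {W' : AddSubgroup K | Nat.card W' < Nat.card W}
          (fun W' => Nat.card W') (Set.toFinite _) hne
        refine ⟨SubClass.mk (tr Wm), fun y => ?_⟩
        constructor
        · intro hy
          obtain ⟨W', rfl, h1⟩ := (lt_tr_iff hK).1 hy
          exact le_tr hK (hmax W' h1)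
        · intro hy
          exact lt_of_le_of_lt hy ((lt_tr_iff hK).2 ⟨Wm, rfl, hWm⟩)
      · left
        intro y hy
        obtain ⟨W', rfl, h1⟩ := (lt_tr_iff hK).1 hy
        exact hne ⟨W', h1⟩
    · subst hg
      right
      left
      refine ⟨SubClass.mk ⊥, fun y => ?_⟩
      change y < SubClass.mk (cj g st) ↔ _
      rw [mk_cj, below_bot]
      constructor
      · intro hy
        induction y using Quotient.inductionOn with
        | h L =>
          obtain ⟨k, hk⟩ := mk_le.1 hy.le
          have h1 : Nat.card L ∣ 7 := by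
            rw [← card_st hK, ← card_cj k st]
            exact Subgroup.card_dvd_of_le hk
          rcases (Nat.dvd_prime (by norm_num)).1 h1 with h2 | h2
          · rw [Subgroup.card_eq_one.1 h2]
            rfl
          · exfalso
            have h3 : L = cj k st := Subgroup.eq_of_le_of_card_ge hk (by
              rw [card_cj, card_st hK, h2])
            apply hy.ne
            rw [h3]
            exact mk_cj k st
      · rintro rfl
        refine lt_of_le_of_ne (mk_le.2 ⟨1, bot_le⟩) fun h1 => ?_
        obtain ⟨k, hk⟩ := mk_le.1 h1.ge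
        have h2 : Nat.card (st : Subgroup (Aff K)) ≤ Nat.card (cj k (⊥ : Subgroup (Aff K))) :=
          Nat.card_le_card_of_injective _ (Subgroup.inclusion_injective hk)
        rw [card_st hK, card_cj, Subgroup.card_bot] at h2
        omega
    · subst h
      right
      right
      refine ⟨SubClass.mk (tr ⊤), SubClass.mk st, SubClass.mk ⊥, fun y => ?_, fun y => ?_⟩
      · constructor
        · intro hy
          induction y using Quotient.inductionOn with
          | h L =>
            rcases classify hK L with ⟨W, hW⟩ | ⟨g, hg⟩ | h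
            · left
              rw [hW]
              exact le_tr hK (AddSubgroup.card_le_of_le le_top)
            · right
              rw [hg]
              exact (mk_cj g st).le
            · exfalso
              rw [h] at hy
              exact lt_irrefl _ hy
        · intro hy
          have htop : y ≤ SubClass.mk ⊤ := by
            rcases hy with hy | hy
            · exact hy.trans (mk_le.2 ⟨1, by rw [cj_one]; exact le_top⟩)
            · exact hy.trans (mk_le.2 ⟨1, by rw [cj_one]; exact le_top⟩)
          refine lt_of_le_of_ne htop ?_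
          rintro rfl
          rcases hy with hy | hy
          · obtain ⟨g, hg⟩ := mk_le.1 hy
            obtain ⟨u, hu⟩ := exists_ne_one hK
            have h1 := hg (Subgroup.mem_top (⟨u, 0⟩ : Aff K))
            exact hu (mem_cj_tr.1 h1).1
          · obtain ⟨g, hg⟩ := mk_le.1 hy
            have h1 := hg (Subgroup.mem_top (⟨1, 1⟩ : Aff K))
            have h2 := mem_cj_st (rfl : (⟨1, 1⟩ : Aff K).a = 1) h1
            have h3 := congrArg Aff.b h2
            change (1 : K) = 0 at h3
            exact one_ne_zero h3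
      · constructor
        · rintro ⟨h1, h2⟩
          induction y using Quotient.inductionOn with
          | h L =>
            obtain ⟨g, hg⟩ := mk_le.1 h1
            obtain ⟨k, hk⟩ := mk_le.1 h2
            have h3 : L = ⊥ := by
              rw [Subgroup.eq_bot_iff_forall]
              intro x hx
              exact mem_cj_st (mem_cj_tr.1 (hg hx)).1 (hk hx)
            rw [h3]
            exact le_rfl
        · intro h1
          rw [below_bot] at h1
          subst h1
          exact ⟨mk_le.2 ⟨1, bot_le⟩, mk_le.2 ⟨1, bot_le⟩⟩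

end Field

end Q4.Orb
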