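import Mathlib

/-!
# Functor categories have enough projectives, and a criterion for functors to preserve projective
dimensions
-/

open CategoryTheory Opposite Limits

namespace Q4.Orb

section Enough

variable {C : Type} [SmallCategory C]

theorem surj_of_epi {F F' : Cᵒᵖ ⥤ ModuleCat.{0} ℚ} (e : F ⟶ F') [Epi e] (K : Cᵒᵖ) :
    Function.Surjective (e.app K) := by
  rw [← ModuleCat.epi_iff_surjective]
  infer_instance

theorem epi_of_surj {F F' : Cᵒᵖ ⥤ ModuleCat.{0} ℚ} (e : F ⟶ F')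
    (h : ∀ K, Function.Surjective (e.app K)) : Epi e := by
  have : ∀ K, Epi (e.app K) := fun K => (ModuleCat.epi_iff_surjective _).2 (h K)
  exact NatTrans.epi_of_epi_app e

theorem mono_of_inj {F F' : Cᵒᵖ ⥤ ModuleCat.{0} ℚ} (e : F ⟶ F')
    (h : ∀ K, Function.Injective (e.app K)) : Mono e := by
  have : ∀ K, Mono (e.app K) := fun K => (ModuleCat.mono_iff_injective _).2 (h K)
  exact NatTrans.mono_of_mono_app e

/-- The index set of the free functor. -/
abbrev GS (X : Cᵒᵖ ⥤ ModuleCat.{0} ℚ) (K : Cᵒᵖ) : Type := Σ H : C, (K.unop ⟶ H) × X.obj (op H)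

/-- The action of a morphism on the index set. -/
def gsMap (X : Cᵒᵖ ⥤ ModuleCat.{0} ℚ) {K L : Cᵒᵖ} (φ : K ⟶ L) (x : GS X K) : GS X L :=
  ⟨x.1, φ.unop ≫ x.2.1, x.2.2⟩

/-- The free functor. -/
noncomputable def fr (X : Cᵒᵖ ⥤ ModuleCat.{0} ℚ) : Cᵒᵖ ⥤ ModuleCat.{0} ℚ where
  obj K := ModuleCat.of ℚ (GS X K →₀ ℚ)
  map φ := ModuleCat.ofHom (Finsupp.lmapDomain ℚ ℚ (gsMap X φ))
  map_id K := by
    have h1 : gsMap X (𝟙 K) = id := by
      funext x
      obtain ⟨H, f, v⟩ := x
      simp [gsMap]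
    rw [h1]
    ext x
    simp
  map_comp {K L M} φ ψ := by
    have h1 : gsMap X (φ ≫ ψ) = gsMap X ψ ∘ gsMap X φ := by
      funext x
      obtain ⟨H, f, v⟩ := x
      simp [gsMap]
    rw [h1]
    ext x
    simp

theorem fr_map_single (X : Cᵒᵖ ⥤ ModuleCat.{0} ℚ) {K L : Cᵒᵖ} (φ : K ⟶ L) (x : GS X K) (q : ℚ) :
    (fr X).map φ (Finsupp.single x q : GS X K →₀ ℚ) = (Finsupp.single (gsMap X φ x) q : GS X L →₀ ℚ) :=
  Finsupp.mapDomain_single

/-- Extending a choice of values to the free functor. -/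
noncomputable def frLift (X F : Cᵒᵖ ⥤ ModuleCat.{0} ℚ) (w : ∀ H : C, X.obj (op H) → F.obj (op H)) :
    fr X ⟶ F where
  app K := ModuleCat.ofHom (Finsupp.linearCombination ℚ fun x : GS X K => F.map x.2.1.op (w x.1 x.2.2))
  naturality K L φ := by
    refine ModuleCat.hom_ext (Finsupp.lhom_ext fun x q => ?_)
    change Finsupp.linearCombination ℚ (fun x : GS X L => F.map x.2.1.op (w x.1 x.2.2))
      ((fr X).map φ (Finsupp.single x q : GS X K →₀ ℚ)) = F.map φ (Finsupp.linearCombination ℚ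
      (fun x : GS X K => F.map x.2.1.op (w x.1 x.2.2)) (Finsupp.single x q))
    rw [fr_map_single, Finsupp.linearCombination_single, Finsupp.linearCombination_single, map_smul]
    congr 1
    change F.map (φ.unop ≫ x.2.1).op _ = _
    rw [op_comp, F.map_comp]
    rfl

theorem frLift_single (X F : Cᵒᵖ ⥤ ModuleCat.{0} ℚ) (w : ∀ H : C, X.obj (op H) → F.obj (op H))
    (K : Cᵒᵖ) (x : GS X K) : (frLift X F w).app K (Finsupp.single x 1 : GS X K →₀ ℚ) =
      F.map x.2.1.op (w x.1 x.2.2) := by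
  change Finsupp.linearCombination ℚ _ (Finsupp.single x 1) = _
  rw [Finsupp.linearCombination_single, one_smul]

theorem hom_ext_fr {X F : Cᵒᵖ ⥤ ModuleCat.{0} ℚ} {α β : fr X ⟶ F}
    (h : ∀ (H : C) (v : X.obj (op H)),
      α.app (op H) (Finsupp.single ⟨H, 𝟙 H, v⟩ 1 : GS X (op H) →₀ ℚ) =
      β.app (op H) (Finsupp.single ⟨H, 𝟙 H, v⟩ 1 : GS X (op H) →₀ ℚ)) : α = β := by
  refine NatTrans.ext (funext fun K => ModuleCat.hom_ext (Finsupp.lhom_ext fun x q => ?_))
  obtain ⟨H, f, v⟩ := x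
  have h1 : (Finsupp.single (⟨H, f, v⟩ : GS X K) q : GS X K →₀ ℚ) = q • (fr X).map f.op
      (Finsupp.single (⟨H, 𝟙 H, v⟩ : GS X (op H)) 1 : GS X (op H) →₀ ℚ) := by
    rw [fr_map_single]
    change _ = q • (Finsupp.single (⟨H, f ≫ 𝟙 H, v⟩ : GS X K) (1 : ℚ) : GS X K →₀ ℚ)
    rw [Category.comp_id, Finsupp.smul_single, smul_eq_mul, mul_one]
  have h2 : ∀ γ : fr X ⟶ F, γ.app K (Finsupp.single (⟨H, f, v⟩ : GS X K) q : GS X K →₀ ℚ) =
      q • F.map f.op (γ.app (op H) (Finsupp.single (⟨H, 𝟙 H, v⟩ : GS X (op H)) 1 :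
        GS X (op H) →₀ ℚ)) := by
    intro γ
    have h3 := congrArg (fun t => γ.app K t) h1
    have h4 := congrArg (fun t => t (Finsupp.single (⟨H, 𝟙 H, v⟩ : GS X (op H)) 1 :
        GS X (op H) →₀ ℚ)) (congrArg ModuleCat.Hom.hom (γ.naturality f.op))
    change γ.app K ((fr X).map f.op _) = F.map f.op (γ.app (op H) _) at h4
    refine h3.trans ?_
    rw [map_smul, h4]
  exact (h2 α).trans ((congrArg _ (congrArg _ (h H v))).trans (h2 β).symm)

instance (X : Cᵒᵖ ⥤ ModuleCat.{0} ℚ) : Projective (fr X) where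
  factors {E F} f e _ := by
    choose w hw using fun (H : C) (v : X.obj (op H)) => surj_of_epi e (op H)
      (f.app (op H) (Finsupp.single (⟨H, 𝟙 H, v⟩ : GS X (op H)) 1 : GS X (op H) →₀ ℚ))
    refine ⟨frLift X E w, hom_ext_fr fun H v => ?_⟩
    change e.app (op H) ((frLift X E w).app (op H) _) = _
    rw [frLift_single]
    change e.app (op H) (E.map (𝟙 H).op (w H v)) = _
    rw [op_id, E.map_id]
    exact hw H v

instance : EnoughProjectives (Cᵒᵖ ⥤ ModuleCat.{0} ℚ) where
  presentation X := ⟨{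
    p := fr X
    f := frLift X X fun _ v => v
    epi := by
      refine epi_of_surj _ fun K v => ⟨(Finsupp.single (⟨K.unop, 𝟙 _, v⟩ : GS X K) 1 : GS X K →₀ ℚ), ?_⟩
      rw [frLift_single]
      change X.map (𝟙 K.unop).op v = v
      rw [op_id]
      change X.map (𝟙 K) v = v
      rw [X.map_id]
      rfl }⟩

end Enough

section General

variable {C D : Type*} [Category C] [Abelian C] [Category D] [Abelian D]

theorem pd_map [EnoughProjectives C] (R : C ⥤ D) [R.Additive] [PreservesFiniteLimits R]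
    [PreservesFiniteColimits R] (hR : ∀ P : C, Projective P → Projective (R.obj P)) (n : ℕ) :
    ∀ X : C, HasProjectiveDimensionLT X (n + 1) → HasProjectiveDimensionLT (R.obj X) (n + 1) := by
  induction n with
  | zero =>
    intro X hX
    have h1 : Projective X := projective_iff_hasProjectiveDimensionLT_one.2 hX
    have := hR X h1
    infer_instance
  | succ n ih =>
    intro X hX
    obtain ⟨p⟩ := EnoughProjectives.presentation X
    have hpr : Projective p.p := p.projective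
    have hepi : Epi p.f := p.epi
    let S : ShortComplex C := ShortComplex.mk (kernel.ι p.f) p.f (kernel.condition p.f)
    have hS : S.ShortExact :=
      { exact := ShortComplex.exact_kernel p.f }
    have h1 : HasProjectiveDimensionLT S.X₁ (n + 1) :=
      (hS.hasProjectiveDimensionLT_X₃_iff n hpr).1 hX
    have h2 : (S.map R).ShortExact := hS.map_of_exact R
    exact (h2.hasProjectiveDimensionLT_X₃_iff n (hR _ hpr)).2 (ih _ h1)

end General

end Q4.Orb
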