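import Pool.Agent.Q4.Orb.Bool3

/-!
# Short exact sequences of functors
-/

open CategoryTheory Opposite Limits

namespace Q4.Orb

section

variable {C : Type} [SmallCategory C]

theorem shortExact_of_pointwise (S : ShortComplex (Cᵒᵖ ⥤ ModuleCat.{0} ℚ))
    (hf : ∀ K, Function.Injective (S.f.app K)) (hg : ∀ K, Function.Surjective (S.g.app K))
    (hex : ∀ K (x : S.X₂.obj K), S.g.app K x = 0 → ∃ y : S.X₁.obj K, S.f.app K y = x) :
    S.ShortExact := by
  have hm : Mono S.f := mono_of_inj _ hf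
  have he : Epi S.g := epi_of_surj _ hg
  refine ⟨?_⟩
  rw [ShortComplex.exact_iff_exact_up_to_refinements]
  intro A t ht
  let f' : ∀ K, S.X₁.obj K →ₗ[ℚ] S.X₂.obj K := fun K => (S.f.app K).hom
  have hmem : ∀ K (a : A.obj K), t.app K a ∈ LinearMap.range (f' K) := by
    intro K a
    have h1 : S.g.app K (t.app K a) = 0 := by
      have h2 := congrArg (fun u : A ⟶ S.X₃ => u.app K a) ht
      exact h2
    obtain ⟨y, hy⟩ := hex K _ h1
    exact ⟨y, hy⟩
  let l : ∀ K, A.obj K →ₗ[ℚ] S.X₁.obj K := fun K =>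
    (LinearEquiv.ofInjective (f' K) (hf K)).symm.toLinearMap ∘ₗ
      ((t.app K).hom.codRestrict (LinearMap.range (f' K)) (hmem K))
  have hl : ∀ K (a : A.obj K), S.f.app K (l K a) = t.app K a := by
    intro K a
    have h1 := (LinearEquiv.ofInjective (f' K) (hf K)).apply_symm_apply
      ((t.app K).hom.codRestrict (LinearMap.range (f' K)) (hmem K) a)
    exact congrArg Subtype.val h1
  refine ⟨A, 𝟙 A, inferInstance, { app := fun K => ModuleCat.ofHom (l K), naturality := ?_ }, ?_⟩
  · intro K L u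
    refine ModuleCat.hom_ext (LinearMap.ext fun a => ?_)
    apply hf L
    change S.f.app L (l L (A.map u a)) = S.f.app L (S.X₁.map u (l K a))
    have h1 : S.f.app L (S.X₁.map u (l K a)) = S.X₂.map u (S.f.app K (l K a)) :=
      congrArg (fun t => t (l K a)) (congrArg ModuleCat.Hom.hom (S.f.naturality u))
    have h2 : t.app L (A.map u a) = S.X₂.map u (t.app K a) :=
      congrArg (fun t => t a) (congrArg ModuleCat.Hom.hom (t.naturality u))
    rw [hl, h2, h1, hl]
  · refine NatTrans.ext (funext fun K => ModuleCat.hom_ext (LinearMap.ext fun a => ?_))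
    exact (hl K a).symm

end

section Koszul

variable (M : Type) [AddCommGroup M] [Module ℚ M]

/-- The first syzygy. -/
def N1 (s : BL) : Submodule ℚ (Fin 1 → M) where
  carrier := {φ | s = Finset.univ → φ = 0}
  add_mem' := by
    intro φ ψ hφ hψ h
    rw [hφ h, hψ h, add_zero]
  zero_mem' := fun _ => rfl
  smul_mem' := by
    intro c φ hφ h
    rw [hφ h, smul_zero]

theorem N1_anti (s t : BL) (h : s ≤ t) : N1 M t ≤ N1 M s := by
  intro φ hφ hs
  apply hφ
  rw [hs] at h
  exact Finset.univ_subset_iff.1 h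

/-- The positions. -/
def pos (i : Fin 3) : BL := {i}ᶜ

/-- The second syzygy. -/
def N2 (s : BL) : Submodule ℚ (Fin 3 → M) where
  carrier := {φ | (∀ i, i ∈ s → φ i = 0) ∧ ∑ i, φ i = 0}
  add_mem' := by
    intro φ ψ hφ hψ
    refine ⟨fun i hi => ?_, ?_⟩
    · rw [Pi.add_apply, hφ.1 i hi, hψ.1 i hi, add_zero]
    · simp only [Pi.add_apply, Finset.sum_add_distrib, hφ.2, hψ.2, add_zero]
  zero_mem' := ⟨fun _ _ => rfl, by simp⟩
  smul_mem' := by
    intro c φ hφ
    refine ⟨fun i hi => ?_, ?_⟩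
    · rw [Pi.smul_apply, hφ.1 i hi, smul_zero]
    · simp only [Pi.smul_apply, ← Finset.smul_sum, hφ.2, smul_zero]

theorem N2_anti (s t : BL) (h : s ≤ t) : N2 M t ≤ N2 M s :=
  fun _ hφ => ⟨fun i hi => hφ.1 i (h hi), hφ.2⟩

theorem not_le_pos (s : BL) (i : Fin 3) : ¬ s ≤ pos i ↔ i ∈ s := by
  rw [pos, not_iff_comm]
  constructor
  · intro h k hk
    rw [Finset.mem_compl, Finset.mem_singleton]
    rintro rfl
    exact h hk
  · intro h hi
    have := h hi
    simp at this

/-- A functor surjecting onto the second syzygy. -/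
def N3 (s : BL) : Submodule ℚ (Fin 3 → Fin 3 → M) where
  carrier := {Φ | ∀ j, Φ j ∈ N2 M {j} ∧ (¬ s ≤ {j} → Φ j = 0)}
  add_mem' := by
    intro Φ Ψ hΦ hΨ j
    refine ⟨(N2 M {j}).add_mem (hΦ j).1 (hΨ j).1, fun h => ?_⟩
    rw [Pi.add_apply, (hΦ j).2 h, (hΨ j).2 h, add_zero]
  zero_mem' := fun j => ⟨(N2 M {j}).zero_mem, fun _ => rfl⟩
  smul_mem' := by
    intro c Φ hΦ j
    refine ⟨(N2 M {j}).smul_mem c (hΦ j).1, fun h => ?_⟩
    rw [Pi.smul_apply, (hΦ j).2 h, smul_zero]

theorem N3_anti (s t : BL) (h : s ≤ t) : N3 M t ≤ N3 M s :=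
  fun _ hΦ j => ⟨(hΦ j).1, fun h' => (hΦ j).2 fun h'' => h' (h.trans h'')⟩

/-- The map from the auxiliary functor to the second syzygy. -/
def q32 : subF (N3 M) (N3_anti M) ⟶ subF (N2 M) (N2_anti M) where
  app s := ModuleCat.ofHom
    { toFun := fun Φ : N3 M s.unop => (⟨∑ j, Φ.1 j, by
        refine Submodule.sum_mem _ fun j _ => ?_
        by_cases h : s.unop ≤ {j}
        · exact N2_anti M _ _ h (Φ.2 j).1
        · rw [(Φ.2 j).2 h]
          exact Submodule.zero_mem _⟩ : N2 M s.unop)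
      map_add' := fun Φ Ψ => Subtype.ext (by
        change ∑ j, (Φ.1 j + Ψ.1 j) = ∑ j, Φ.1 j + ∑ j, Ψ.1 j
        rw [Finset.sum_add_distrib])
      map_smul' := fun c Φ => Subtype.ext (by
        change ∑ j, c • Φ.1 j = c • ∑ j, Φ.1 j
        rw [Finset.smul_sum]) }
  naturality _ _ _ := rfl

theorem q32_apply (s : BL) (Φ : N3 M s) :
    Subtype.val (p := fun x => x ∈ N2 M s) ((q32 M).app (op s) Φ) = ∑ j, Φ.1 j := rfl

theorem q32_surj (s : BL) (φ : N2 M s) : ∃ Φ : N3 M s, ∑ j, Φ.1 j = φ.1 := by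
  -- the size of `s`
  by_cases h0 : s = ∅
  · subst h0
    refine ⟨⟨![![0, φ.1 1, -φ.1 1], ![φ.1 0, 0, -φ.1 0], 0], fun j => ⟨?_, fun h => absurd
      (Finset.empty_subset _) h⟩⟩, ?_⟩
    · fin_cases j
      · refine ⟨fun i hi => ?_, ?_⟩
        · rw [Finset.mem_singleton.1 hi]
          rfl
        · simp [Fin.sum_univ_three]
      · refine ⟨fun i hi => ?_, ?_⟩
        · rw [Finset.mem_singleton.1 hi]
          rfl
        · simp [Fin.sum_univ_three]
      · exact Submodule.zero_mem _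
    · have h1 := φ.2.2
      rw [Fin.sum_univ_three] at h1
      have h2 : φ.1 2 = -φ.1 1 + -φ.1 0 := by
        rw [← sub_eq_zero]
        rw [← h1]
        abel
      funext i
      simp only [Fin.sum_univ_three, Pi.add_apply]
      fin_cases i
      · simp
      · simp
      · simp only [Matrix.cons_val_zero, Matrix.cons_val_one, Matrix.cons_val, Pi.zero_apply,
          Fin.reduceFinMk, add_zero]
        exact h2.symm
  · by_cases h1 : ∃ j, s = {j}
    · obtain ⟨j, rfl⟩ := h1
      refine ⟨⟨Pi.single j φ.1, fun k => ?_⟩, ?_⟩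
      · by_cases hk : k = j
        · subst hk
          rw [Pi.single_eq_same]
          exact ⟨φ.2, fun h => absurd le_rfl h⟩
        · rw [Pi.single_eq_of_ne hk]
          exact ⟨Submodule.zero_mem _, fun _ => rfl⟩
      · exact Finset.sum_pi_single' j φ.1 Finset.univ |>.trans (by simp)
    · -- `s` has at least two elements
      have h2 : ∃ i k : Fin 3, i ≠ k ∧ i ∈ s ∧ k ∈ s := by
        obtain ⟨i, hi⟩ := Finset.nonempty_iff_ne_empty.2 h0
        by_contra hcon
        push Not at hcon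
        apply h1
        refine ⟨i, Finset.eq_singleton_iff_unique_mem.2 ⟨hi, fun k hk => ?_⟩⟩
        by_contra hne
        exact hcon i k (Ne.symm hne) hi hk
      obtain ⟨i, k, hik, hi, hk⟩ := h2
      have h3 : φ.1 = 0 := by
        have hi0 := φ.2.1 i hi
        have hk0 := φ.2.1 k hk
        have hs := φ.2.2
        rw [Fin.sum_univ_three] at hs
        funext l
        fin_cases i <;> fin_cases k <;> fin_cases l <;> simp_all
      refine ⟨0, ?_⟩
      rw [h3]
      simp

end Koszul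

end Q4.Orb
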