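import Pool.Agent.Q4.Orb.Classes

/-!
# The two global dimensions
-/

open CategoryTheory Opposite Limits

namespace Q4.Orb

/-- The global dimension of an abelian category: the supremum of the projective dimensions of its
objects. -/
noncomputable def gldim (C : Type 1) [Category.{0} C] [Abelian C] : WithBot ℕ∞ :=
  ⨆ X : C, projectiveDimension X

/-- The global dimension of the rational incidence algebra of `Sub_G / G`. -/
noncomputable def gldimIA (G : Type) [Group G] [Finite G] : WithBot ℕ∞ :=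
  gldim (ModuleCat.{0} (IncidenceAlgebra ℚ (SubClass G)))

/-- The global dimension of the category of rational coefficient systems. -/
noncomputable def gldimCoef (G : Type) [Group G] : WithBot ℕ∞ := gldim (Coef G)

/-- The field with eight elements. -/
abbrev F8 : Type := GaloisField 2 3

noncomputable instance : Fintype F8 := Fintype.ofFinite _

theorem card_F8 : Fintype.card F8 = 8 := by
  rw [← Nat.card_eq_fintype_card, GaloisField.card 2 3 (by norm_num)]
  norm_num

theorem gldimIA_le : gldimIA (Aff F8) ≤ (2 : ℕ) := by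
  refine iSup_le fun X => ?_
  rw [projectiveDimension_le_iff]
  have h1 := pd_all (P := SubClass (Aff F8)) (hasse card_F8) Finset.univ X
    (fun x hx => absurd (Finset.mem_univ x) hx)
  exact h1

/-- A basis of the field. -/
noncomputable def bas : Module.Basis (Fin 3) (ZMod 2) F8 :=
  (Module.finBasis (ZMod 2) F8).reindex (finCongr (GaloisField.finrank 2 (by norm_num)))

/-- The corresponding translations. -/
noncomputable def ee (i : Fin 3) : Aff F8 := ⟨1, bas i⟩

theorem cl_univ (x : F8) : (⟨1, x⟩ : Aff F8) ∈ cl ee Finset.univ := by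
  have h1 : x ∈ Submodule.span (ZMod 2) (Set.range bas) := bas.mem_span x
  induction h1 using Submodule.span_induction with
  | mem y hy =>
    obtain ⟨i, rfl⟩ := hy
    exact Subgroup.subset_closure ⟨i, by simp, rfl⟩
  | zero => exact (cl ee Finset.univ).one_mem
  | add y z _ _ hy hz =>
    have h2 := (cl ee Finset.univ).mul_mem hy hz
    have h3 : (⟨1, y⟩ : Aff F8) * ⟨1, z⟩ = ⟨1, y + z⟩ := by
      refine Aff.ext (mul_one _) ?_
      rw [Aff.mul_b]
      simp [add_comm]
    rwa [h3] at h2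
  | smul c y _ hy =>
    have h2 : c = 0 ∨ c = 1 := by
      revert c
      decide
    rcases h2 with rfl | rfl
    · rw [zero_smul]
      exact (cl ee Finset.univ).one_mem
    · rw [one_smul]
      exact hy

theorem cl_le (s : BL) : cl ee s ≤ tr (Submodule.span (ZMod 2) (bas '' (s : Set (Fin 3)))).toAddSubgroup := by
  rw [cl, Subgroup.closure_le]
  rintro _ ⟨i, hi, rfl⟩
  exact ⟨rfl, Submodule.subset_span ⟨i, hi, rfl⟩⟩

theorem no_map (s : BL) (hs : s ≠ Finset.univ) :
    IsEmpty ((uu ee).obj Finset.univ ⟶ (uu ee).obj s) := by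
  refine ⟨fun f => ?_⟩
  obtain ⟨i, hi⟩ : ∃ i, i ∉ s := by
    by_contra hcon
    push Not at hcon
    exact hs (Finset.eq_univ_iff_forall.2 hcon)
  obtain ⟨g, hg⟩ := QuotientGroup.mk_surjective (MulActionHom.toFun f (bp (cl ee Finset.univ)))
  have h1 : ∀ x : F8, g⁻¹ * ⟨1, x⟩ * g ∈ cl ee s := by
    intro x
    have h2 : (⟨1, x⟩ : Aff F8) • bp (cl ee Finset.univ) = bp (cl ee Finset.univ) := by
      change (((⟨1, x⟩ : Aff F8) * 1 : Aff F8) : Aff F8 ⧸ cl ee Finset.univ) =
        ((1 : Aff F8) : Aff F8 ⧸ cl ee Finset.univ)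
      rw [mul_one]
      exact QuotientGroup.eq.2 (by simpa using inv_mem (cl_univ x))
    have h3 := (congrArg (MulActionHom.toFun f) h2).symm.trans
      (orbit_smul f (⟨1, x⟩ : Aff F8) (bp (cl ee Finset.univ)))
    rw [← hg] at h3
    have h4 : g⁻¹ * (⟨1, x⟩ * g) ∈ cl ee s := QuotientGroup.eq.1 h3
    rwa [← mul_assoc] at h4
  have h2 := h1 (g.a * bas i)
  have h3 : g⁻¹ * (⟨1, g.a * bas i⟩ : Aff F8) * g = ⟨1, bas i⟩ := by
    have h4 : g⁻¹ * (⟨1, g.a * bas i⟩ : Aff F8) * g = g⁻¹ * (⟨1, g.a * bas i⟩ : Aff F8) * g⁻¹⁻¹ := by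
      rw [inv_inv]
    rw [h4]
    refine Aff.ext (Aff.conj_a _ _) ?_
    rw [Aff.conj_b, Aff.inv_a]
    change ((g.a⁻¹ : (F8)ˣ) : F8) * (g.a * bas i) + (1 - ((1 : (F8)ˣ) : F8)) * _ = bas i
    rw [Units.val_one, sub_self, zero_mul, add_zero, ← mul_assoc, ← Units.val_mul,
      inv_mul_cancel, Units.val_one, one_mul]
  rw [h3] at h2
  have h4 := (cl_le s h2).2
  have h5 : bas i ∉ Submodule.span (ZMod 2) (bas '' (s : Set (Fin 3))) :=
    bas.linearIndependent.notMem_span_image (by simpa using hi)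
  exact h5 h4

theorem le_gldimCoef : ((3 : ℕ) : WithBot ℕ∞) ≤ gldimCoef (Aff F8) := by
  refine le_trans ?_ (le_iSup _ (IA0 ((uu ee).obj Finset.univ)))
  rw [projectiveDimension_ge_iff]
  exact not_pd_coef ee no_map

theorem gldim_ne : gldimIA (Aff F8) ≠ gldimCoef (Aff F8) := by
  intro h
  have h1 := gldimIA_le
  have h2 := le_gldimCoef
  rw [h] at h1
  have h3 := h2.trans h1
  have h4 : (3 : ℕ) ≤ 2 := by exact_mod_cast h3
  omega

end Q4.Orb
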