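import Pool.Agent.Q4.Orb.Exact

/-!
# The lower bound over the Boolean lattice
-/

open CategoryTheory Opposite Limits

namespace Q4.Orb

theorem epi_q32 (M : Type) [AddCommGroup M] [Module ℚ M] : Epi (q32 M) := by
  refine epi_of_surj _ fun K φ => ?_
  obtain ⟨Φ, hΦ⟩ := q32_surj M K.unop φ
  exact ⟨Φ, Subtype.ext hΦ⟩

theorem not_projective_N2 (M : Type) [AddCommGroup M] [Module ℚ M] [Nontrivial M] :
    ¬ Projective (subF (N2 M) (N2_anti M)) := by
  intro hP
  have := epi_q32 M
  let σ : subF (N2 M) (N2_anti M) ⟶ subF (N3 M) (N3_anti M) :=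
    Projective.factorThru (𝟙 _) (q32 M)
  have hσ : σ ≫ q32 M = 𝟙 _ := Projective.factorThru_comp _ _
  let L : ∀ s : BL, N2 M s →ₗ[ℚ] N3 M s := fun s => (σ.app (op s)).hom
  have hL : ∀ (s : BL) (φ : N2 M s), ∑ j, (L s φ).1 j = φ.1 := by
    intro s φ
    have h1 := congrArg (fun u : subF (N2 M) (N2_anti M) ⟶ subF (N2 M) (N2_anti M) =>
      u.app (op s) φ) hσ
    exact congrArg Subtype.val h1
  have hnat : ∀ (j : Fin 3) (φ : N2 M {j}), (L ∅ ⟨φ.1, N2_anti M _ _ (Finset.empty_subset _) φ.2⟩).1 =
      (L {j} φ).1 := by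
    intro j φ
    let u : (op ({j} : BL)) ⟶ (op (∅ : BL)) := (homOfLE (Finset.empty_subset _)).op
    have h1 := congrArg (fun t => t φ) (congrArg ModuleCat.Hom.hom (σ.naturality u))
    exact congrArg Subtype.val h1
  have key : ∀ (j : Fin 3) (φ : N2 M {j}),
      (L ∅ ⟨φ.1, N2_anti M _ _ (Finset.empty_subset _) φ.2⟩).1 = Pi.single j φ.1 := by
    intro j φ
    rw [hnat]
    have h1 : ∀ i, i ≠ j → (L {j} φ).1 i = 0 := by
      intro i hi
      refine ((L {j} φ).2 i).2 fun h => ?_
      have := h (Finset.mem_singleton_self j)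
      rw [Finset.mem_singleton] at this
      exact hi this.symm
    have h2 := hL {j} φ
    rw [Finset.sum_eq_single j (fun i _ hi => h1 i hi) (fun h => absurd (Finset.mem_univ j) h)] at h2
    funext i
    by_cases hi : i = j
    · subst hi
      rw [Pi.single_eq_same, h2]
    · rw [Pi.single_eq_of_ne hi, h1 i hi]
  obtain ⟨m, hm⟩ := exists_ne (0 : M)
  have m0 : (![0, m, -m] : Fin 3 → M) ∈ N2 M {0} := by
    refine ⟨fun i hi => ?_, ?_⟩
    · rw [Finset.mem_singleton.1 hi]
      rfl
    · simp [Fin.sum_univ_three]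
  have m1 : (![-m, 0, m] : Fin 3 → M) ∈ N2 M {1} := by
    refine ⟨fun i hi => ?_, ?_⟩
    · rw [Finset.mem_singleton.1 hi]
      rfl
    · simp [Fin.sum_univ_three]
  have m2 : (![m, -m, 0] : Fin 3 → M) ∈ N2 M {2} := by
    refine ⟨fun i hi => ?_, ?_⟩
    · rw [Finset.mem_singleton.1 hi]
      rfl
    · simp [Fin.sum_univ_three]
  have k0 := key 0 ⟨_, m0⟩
  have k1 := key 1 ⟨_, m1⟩
  have k2 := key 2 ⟨_, m2⟩
  have hsum : L ∅ ⟨![0, m, -m], N2_anti M _ _ (Finset.empty_subset _) m0⟩ +
      L ∅ ⟨![-m, 0, m], N2_anti M _ _ (Finset.empty_subset _) m1⟩ +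
      L ∅ ⟨![m, -m, 0], N2_anti M _ _ (Finset.empty_subset _) m2⟩ = 0 := by
    rw [← map_add, ← map_add]
    have h0 : (⟨![0, m, -m], N2_anti M _ _ (Finset.empty_subset _) m0⟩ +
      ⟨![-m, 0, m], N2_anti M _ _ (Finset.empty_subset _) m1⟩ +
      ⟨![m, -m, 0], N2_anti M _ _ (Finset.empty_subset _) m2⟩ : N2 M ∅) = 0 := by
      apply Subtype.ext
      change (![0, m, -m] + ![-m, 0, m] + ![m, -m, 0] : Fin 3 → M) = 0
      funext i
      fin_cases i <;> simp
    rw [h0, map_zero]
  have h1 := congrArg Subtype.val hsum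
  change (L ∅ _).1 + (L ∅ _).1 + (L ∅ _).1 = 0 at h1
  rw [k0, k1, k2] at h1
  have h2 := congrFun (congrFun h1 0) 1
  simp at h2
  exact hm h2

/-- The lower bound for the projective dimension. -/
theorem not_pd (F : FB) (h0 : ∀ s : BL, s ≠ Finset.univ → Subsingleton (F.obj (op s)))
    (h1 : Nontrivial (F.obj (op (Finset.univ : BL)))) : ¬ HasProjectiveDimensionLT F 3 := by
  intro hF
  let M : Type := F.obj (op (Finset.univ : BL))
  have hmap : ∀ {X : FB} {s t r : BLᵒᵖ} (u : s ⟶ t) (v : t ⟶ r) (w : s ⟶ r) (x : X.obj s),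
      X.map v (X.map u x) = X.map w x := by
    intro X s t r u v w x
    have h1 : w = u ≫ v := Subsingleton.elim _ _
    rw [h1, X.map_comp]
    rfl
  -- the first short exact sequence
  let P0 : FB := frF (Fin 1) (fun _ => Finset.univ) M
  let O1 : FB := subF (N1 M) (N1_anti M)
  have hP0 : Projective P0 := projective_frF _ _ _
  let i1 : O1 ⟶ P0 :=
    { app := fun s => ModuleCat.ofHom (Submodule.inclusion (fun φ _ i hi =>
        absurd (Finset.subset_univ _) hi) : N1 M s.unop →ₗ[ℚ] frN (Fin 1) (fun _ => Finset.univ) M s.unop)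
      naturality := fun _ _ _ => rfl }
  let p1 : P0 ⟶ F :=
    { app := fun s => ModuleCat.ofHom ((F.map (homOfLE (Finset.subset_univ s.unop)).op).hom ∘ₗ
        (LinearMap.proj 0 ∘ₗ (frN (Fin 1) (fun _ => Finset.univ) M s.unop).subtype))
      naturality := fun s t u => by
        refine ModuleCat.hom_ext (LinearMap.ext fun φ => ?_)
        exact (hmap (X := F) _ _ _ _).symm }
  have e1 : ∀ (s : BL) (φ : frN (Fin 1) (fun _ => Finset.univ) M s), p1.app (op s) φ =
      F.map (homOfLE (Finset.subset_univ s)).op (φ.1 0) := fun s φ => rfl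
  have huniv : ∀ x : M, F.map (homOfLE (Finset.subset_univ (Finset.univ : BL))).op x = x := by
    intro x
    have h2 : (homOfLE (Finset.subset_univ (Finset.univ : BL))).op = 𝟙 _ := Subsingleton.elim _ _
    rw [h2, F.map_id]
    rfl
  have w1 : i1 ≫ p1 = 0 := by
    refine NatTrans.ext (funext fun s => ModuleCat.hom_ext (LinearMap.ext fun φ => ?_))
    change F.map (homOfLE (Finset.subset_univ s.unop)).op ((φ : N1 M s.unop).1 0) = 0
    by_cases hs : s.unop = Finset.univ
    · have h2 : (φ : N1 M s.unop).1 = 0 := (φ : N1 M s.unop).2 hs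
      rw [h2]
      exact map_zero _
    · have := h0 _ hs
      exact Subsingleton.elim (α := F.obj (op s.unop)) _ _
  let S1 : ShortComplex FB := ShortComplex.mk i1 p1 w1
  have hS1 : S1.ShortExact := by
    refine shortExact_of_pointwise S1 (fun K => Submodule.inclusion_injective
      (p := N1 M K.unop) (p' := frN (Fin 1) (fun _ => Finset.univ) M K.unop)
      (fun φ _ i hi => absurd (Finset.subset_univ _) hi)) (fun K x => ?_)
      (fun K φ hφ => ?_)
    · by_cases hs : K.unop = Finset.univ
      · obtain ⟨s⟩ := K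
        change s = Finset.univ at hs
        subst hs
        refine ⟨(⟨fun _ => x, fun i hi => absurd (Finset.subset_univ _) hi⟩ :
          frN (Fin 1) (fun _ => Finset.univ) M Finset.univ), ?_⟩
        exact huniv x
      · have := h0 _ hs
        exact ⟨0, Subsingleton.elim (α := F.obj (op K.unop)) _ _⟩
    · refine ⟨(⟨(φ : frN (Fin 1) (fun _ => Finset.univ) M K.unop).1, fun hs => ?_⟩ : N1 M K.unop), rfl⟩
      obtain ⟨s⟩ := K
      change s = Finset.univ at hs
      subst hs
      have h2 : (φ : frN (Fin 1) (fun _ => Finset.univ) M Finset.univ).1 0 = 0 := by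
        rw [← huniv ((φ : frN (Fin 1) (fun _ => Finset.univ) M Finset.univ).1 0)]
        exact hφ
      funext i
      rw [Subsingleton.elim i 0]
      exact h2
  -- the second short exact sequence
  let P1 : FB := frF (Fin 3) pos M
  let O2 : FB := subF (N2 M) (N2_anti M)
  have hP1 : Projective P1 := projective_frF _ _ _
  have hmem : ∀ (s : BL) (φ : Fin 3 → M), φ ∈ frN (Fin 3) pos M s ↔ ∀ i, i ∈ s → φ i = 0 := by
    intro s φ
    constructor
    · intro h i hi
      exact h i ((not_le_pos s i).2 hi)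
    · intro h i hi
      exact h i ((not_le_pos s i).1 hi)
  let i2 : O2 ⟶ P1 :=
    { app := fun s => ModuleCat.ofHom (Submodule.inclusion (fun φ hφ => (hmem _ _).2 hφ.1) :
        N2 M s.unop →ₗ[ℚ] frN (Fin 3) pos M s.unop)
      naturality := fun _ _ _ => rfl }
  let p2 : P1 ⟶ O1 :=
    { app := fun s => ModuleCat.ofHom
        { toFun := fun φ : frN (Fin 3) pos M s.unop => (⟨fun _ => ∑ i, φ.1 i, fun hs => by
            funext k
            refine Finset.sum_eq_zero fun i _ => ?_
            refine (hmem _ _).1 φ.2 i ?_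
            rw [hs]
            exact Finset.mem_univ i⟩ : N1 M s.unop)
          map_add' := fun φ ψ => Subtype.ext (funext fun _ => by
            change ∑ i, (φ.1 i + ψ.1 i) = ∑ i, φ.1 i + ∑ i, ψ.1 i
            rw [Finset.sum_add_distrib])
          map_smul' := fun c φ => Subtype.ext (funext fun _ => by
            change ∑ i, c • φ.1 i = c • ∑ i, φ.1 i
            rw [Finset.smul_sum]) }
      naturality := fun _ _ _ => rfl }
  have w2 : i2 ≫ p2 = 0 := by
    refine NatTrans.ext (funext fun s => ModuleCat.hom_ext (LinearMap.ext fun φ => ?_))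
    refine Subtype.ext (funext fun _ => ?_)
    exact (φ : N2 M s.unop).2.2
  let S2 : ShortComplex FB := ShortComplex.mk i2 p2 w2
  have hS2 : S2.ShortExact := by
    refine shortExact_of_pointwise S2 (fun K => Submodule.inclusion_injective
      (p := N2 M K.unop) (p' := frN (Fin 3) pos M K.unop)
      (fun φ hφ => (hmem _ _).2 hφ.1)) (fun K x => ?_)
      (fun K φ hφ => ?_)
    · let x' : N1 M K.unop := x
      by_cases hs : K.unop = Finset.univ
      · refine ⟨0, Subtype.ext ?_⟩
        rw [show x = x' from rfl, x'.2 hs]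
        change (fun _ : Fin 1 => ∑ i : Fin 3, (0 : M)) = 0
        funext _
        simp
      · have h2 : ∃ i, i ∉ K.unop := by
          by_contra hcon
          push Not at hcon
          exact hs (Finset.eq_univ_iff_forall.2 hcon)
        obtain ⟨i, hi⟩ := h2
        refine ⟨(⟨Pi.single i (x'.1 0), ?_⟩ : frN (Fin 3) pos M K.unop), Subtype.ext (funext fun k => ?_)⟩
        · refine (hmem _ _).2 fun k hk => ?_
          rw [Pi.single_eq_of_ne]
          rintro rfl
          exact hi hk
        · change ∑ l, (Pi.single i (x'.1 0) : Fin 3 → M) l = x'.1 k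
          rw [Subsingleton.elim k 0]
          simp
    · let φ' : frN (Fin 3) pos M K.unop := φ
      refine ⟨(⟨φ'.1, (hmem _ _).1 φ'.2, ?_⟩ : N2 M K.unop), rfl⟩
      exact congrFun (congrArg Subtype.val hφ) 0
  -- dimension shifting
  have h2 : HasProjectiveDimensionLT O1 2 := (hS1.hasProjectiveDimensionLT_X₃_iff 1 hP0).1 hF
  have h3 : HasProjectiveDimensionLT O2 1 := (hS2.hasProjectiveDimensionLT_X₃_iff 0 hP1).1 h2
  have : Nontrivial M := h1
  exact not_projective_N2 M (projective_iff_hasProjectiveDimensionLT_one.2 h3)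

end Q4.Orb
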