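import Pool.Agent.Q4.Orb.Lower

/-!
# Coefficient systems and their restrictions to the Boolean lattice
-/

open CategoryTheory Opposite Limits

namespace Q4.Orb

/-- The orbit category of `G`: the object given by a subgroup `H` is the transitive `G`-set `G ⧸ H`;
the morphisms are the `G`-equivariant maps. -/
structure Orbit (G : Type) [Group G] : Type where
  stab : Subgroup G

instance orbitCategory (G : Type) [Group G] : Category (Orbit G) where
  Hom X Y := (G ⧸ X.stab) →[G] (G ⧸ Y.stab)
  id X := MulActionHom.id G
  comp f g := g.comp f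

/-- Rational coefficient systems: contravariant functors from the orbit category to the category of
rational vector spaces. -/
abbrev Coef (G : Type) [Group G] : Type 1 := (Orbit G)ᵒᵖ ⥤ ModuleCat.{0} ℚ

variable {G : Type} [Group G]

theorem orbit_comp_apply {X Y Z : Orbit G} (f : X ⟶ Y) (g : Y ⟶ Z) (x : G ⧸ X.stab) :
    MulActionHom.toFun (f ≫ g) x = MulActionHom.toFun g (MulActionHom.toFun f x) := rfl

theorem orbit_ext {X Y : Orbit G} {f g : X ⟶ Y}
    (h : ∀ x, MulActionHom.toFun f x = MulActionHom.toFun g x) : f = g :=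
  MulActionHom.ext h

theorem orbit_smul {X Y : Orbit G} (f : X ⟶ Y) (g : G) (x : G ⧸ X.stab) :
    MulActionHom.toFun f (g • x) = g • MulActionHom.toFun f x := f.map_smul' g x

/-- The orbit map of a point. -/
def om (K H : Subgroup G) (x : G ⧸ H) (hx : ∀ k ∈ K, k • x = x) : (⟨K⟩ : Orbit G) ⟶ ⟨H⟩ where
  toFun := Quotient.lift (s := QuotientGroup.leftRel K) (fun g : G => g • x) (by
    intro a b hab
    have h1 : a⁻¹ * b ∈ K := QuotientGroup.leftRel_apply.1 hab
    have h2 := hx _ h1
    change a • x = b • x
    rw [mul_smul, inv_smul_eq_iff] at h2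
    exact h2.symm)
  map_smul' := by
    intro g y
    induction y using Quotient.inductionOn with
    | h a => exact mul_smul g a x

theorem om_mk (K H : Subgroup G) (x : G ⧸ H) (hx : ∀ k ∈ K, k • x = x) (g : G) :
    MulActionHom.toFun (om K H x hx) (g : G ⧸ K) = g • x := rfl

/-- The base point. -/
def bp (H : Subgroup G) : G ⧸ H := ((1 : G) : G ⧸ H)

theorem om_smul_bp (K H : Subgroup G) (x : G ⧸ H) (hx : ∀ k ∈ K, k • x = x) (a : G) :
    MulActionHom.toFun (om K H x hx) (a • bp K) = a • x := by
  change (a * 1) • x = a • x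
  rw [mul_one]

variable (e : Fin 3 → G)

/-- The subgroup generated by some of the elements. -/
def cl (s : BL) : Subgroup G := Subgroup.closure (e '' (s : Set (Fin 3)))

theorem cl_fix {s : BL} {H : Subgroup G} {x : G ⧸ H} (h : ∀ i ∈ s, e i • x = x) :
    ∀ k ∈ cl e s, k • x = x := by
  have h1 : cl e s ≤ MulAction.stabilizer G x := by
    rw [cl, Subgroup.closure_le]
    rintro _ ⟨i, hi, rfl⟩
    exact h i hi
  exact fun k hk => h1 hk

theorem e_bp {s t : BL} (h : s ≤ t) : ∀ i ∈ s, e i • bp (cl e t) = bp (cl e t) := by
  intro i hi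
  have h1 : e i ∈ cl e t := Subgroup.subset_closure ⟨i, h hi, rfl⟩
  change ((e i * 1 : G) : G ⧸ cl e t) = ((1 : G) : G ⧸ cl e t)
  rw [mul_one]
  exact QuotientGroup.eq.2 (by simpa using inv_mem h1)

/-- The functor from the Boolean lattice to the orbit category. -/
def uu : BL ⥤ Orbit G where
  obj s := ⟨cl e s⟩
  map {s t} h := om (cl e s) (cl e t) (bp (cl e t)) (cl_fix e (e_bp e (leOfHom h)))
  map_id s := orbit_ext fun x => by
    induction x using Quotient.inductionOn with
    | h a =>
      change a • bp (cl e s) = (a : G ⧸ cl e s)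
      change ((a * 1 : G) : G ⧸ cl e s) = (a : G ⧸ cl e s)
      rw [mul_one]
  map_comp {s t r} h k := orbit_ext fun x => by
    induction x using Quotient.inductionOn with
    | h a =>
      rw [orbit_comp_apply]
      change a • bp (cl e r) = MulActionHom.toFun (om (cl e t) (cl e r) (bp (cl e r))
        (cl_fix e (e_bp e (leOfHom k)))) (a • bp (cl e t))
      rw [orbit_smul]
      change _ = a • ((1 : G) • bp (cl e r))
      rw [one_smul]

/-- The restriction functor. -/
def Res : Coef G ⥤ FB := (Functor.whiskeringLeft _ _ _).obj (uu e).op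

open Classical in
/-- The generators fixing a point. -/
noncomputable def ww {H : Subgroup G} (x : G ⧸ H) : BL :=
  Finset.univ.filter fun i => e i • x = x

theorem mem_ww {H : Subgroup G} (x : G ⧸ H) (i : Fin 3) : i ∈ ww e x ↔ e i • x = x := by
  simp [ww]

theorem ww_le {X Y : Orbit G} (f : X ⟶ Y) (x : G ⧸ X.stab) :
    ww e x ≤ ww e (MulActionHom.toFun f x) := by
  intro i hi
  rw [mem_ww] at hi ⊢
  rw [← orbit_smul, hi]

theorem le_ww_bp (s : BL) : s ≤ ww e (bp (cl e s)) := by
  intro i hi
  rw [mem_ww]
  exact e_bp e le_rfl i hi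

/-- The orbit map from the subgroup generated by the generators fixing a point. -/
noncomputable def oo (X : Orbit G) (x : G ⧸ X.stab) : (uu e).obj (ww e x) ⟶ X :=
  om (cl e (ww e x)) X.stab x (cl_fix e fun i hi => (mem_ww e x i).1 hi)

theorem oo_comp {X Y : Orbit G} (f : X ⟶ Y) (x : G ⧸ X.stab) :
    (uu e).map (homOfLE (ww_le e f x)) ≫ oo e Y (MulActionHom.toFun f x) = oo e X x ≫ f := by
  refine orbit_ext fun y => ?_
  induction y using Quotient.inductionOn with
  | h a =>
    rw [orbit_comp_apply, orbit_comp_apply]
    change MulActionHom.toFun (oo e Y (MulActionHom.toFun f x)) (a • bp _) =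
      MulActionHom.toFun f (a • x)
    rw [orbit_smul f]
    exact om_smul_bp _ _ _ _ a

theorem oo_bp (s : BL) :
    (uu e).map (homOfLE (le_ww_bp e s)) ≫ oo e ((uu e).obj s) (bp (cl e s)) = 𝟙 _ := by
  refine orbit_ext fun y => ?_
  induction y using Quotient.inductionOn with
  | h a =>
    rw [orbit_comp_apply]
    change MulActionHom.toFun (oo e ((uu e).obj s) (bp (cl e s))) (a • bp _) = (a : G ⧸ cl e s)
    refine (om_smul_bp _ _ _ _ a).trans ?_
    change ((a * 1 : G) : G ⧸ cl e s) = (a : G ⧸ cl e s)
    rw [mul_one]

theorem map_map_FB {X : FB} {s t r : BLᵒᵖ} (u : s ⟶ t) (v : t ⟶ r) (w : s ⟶ r) (x : X.obj s) :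
    X.map v (X.map u x) = X.map w x := by
  have h1 : w = u ≫ v := Subsingleton.elim _ _
  rw [h1, X.map_comp]
  rfl

/-- The coinduced coefficient system. -/
noncomputable def TT (Y : FB) : Coef G where
  obj X := ModuleCat.of ℚ (∀ x : G ⧸ X.unop.stab, Y.obj (op (ww e x)))
  map {X X'} φ := ModuleCat.ofHom
    { toFun := fun y x => Y.map (homOfLE (ww_le e φ.unop x)).op (y (MulActionHom.toFun φ.unop x))
      map_add' := fun y z => funext fun x => map_add _ _ _
      map_smul' := fun c y => funext fun x => map_smul _ _ _ }
  map_id X := by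
    refine ModuleCat.hom_ext (LinearMap.ext fun y => funext fun x => ?_)
    have h : (homOfLE (ww_le e (𝟙 X : X ⟶ X).unop x)).op = 𝟙 _ := Subsingleton.elim _ _
    change Y.map (homOfLE (ww_le e (𝟙 X : X ⟶ X).unop x)).op (y x) = y x
    rw [h]
    exact congrArg (fun t => t (y x)) (congrArg ModuleCat.Hom.hom (Y.map_id _))
  map_comp φ ψ := by
    refine ModuleCat.hom_ext (LinearMap.ext fun y => funext fun x => ?_)
    exact (map_map_FB _ _ _ _).symm

theorem map_comp_Coef {P : Coef G} {X Y Z : Orbit G} (f : X ⟶ Y) (g : Y ⟶ Z) (p : P.obj (op Z)) :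
    P.map (f ≫ g).op p = P.map f.op (P.map g.op p) := by
  rw [op_comp, P.map_comp]
  rfl

theorem nat_apply {C : Type} [SmallCategory C] {X Y : Cᵒᵖ ⥤ ModuleCat.{0} ℚ} (α : X ⟶ Y)
    {s t : Cᵒᵖ} (u : s ⟶ t) (x : X.obj s) : α.app t (X.map u x) = Y.map u (α.app s x) :=
  congrArg (fun t => t x) (congrArg ModuleCat.Hom.hom (α.naturality u))

/-- The adjoint map. -/
noncomputable def sharp {P : Coef G} {Y : FB} (f : (Res e).obj P ⟶ Y) : P ⟶ TT e Y where
  app X := ModuleCat.ofHom
    { toFun := fun p x => f.app (op (ww e x)) (P.map (oo e X.unop x).op p)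
      map_add' := fun p q => funext fun x => by
        rw [map_add]
        exact map_add _ _ _
      map_smul' := fun c p => funext fun x => by
        rw [map_smul]
        exact map_smul _ _ _ }
  naturality X X' φ := by
    refine ModuleCat.hom_ext (LinearMap.ext fun p => funext fun x => ?_)
    change f.app (op (ww e x)) (P.map (oo e X'.unop x).op (P.map φ.unop.op p)) =
      Y.map (homOfLE (ww_le e φ.unop x)).op (f.app (op (ww e (MulActionHom.toFun φ.unop x)))
        (P.map (oo e X.unop (MulActionHom.toFun φ.unop x)).op p))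
    rw [← map_comp_Coef, ← oo_comp, map_comp_Coef]
    exact nat_apply f (homOfLE (ww_le e φ.unop x)).op _

theorem res_projective (P : Coef G) (hP : Projective P) : Projective ((Res e).obj P) where
  factors {Y Y'} f q _ := by
    let Tq : TT e Y ⟶ TT e Y' :=
      { app := fun X => ModuleCat.ofHom
          { toFun := fun y x => q.app _ (y x)
            map_add' := fun y z => funext fun x => map_add _ _ _
            map_smul' := fun c y => funext fun x => map_smul _ _ _ }
        naturality := fun X X' φ => by
          refine ModuleCat.hom_ext (LinearMap.ext fun y => funext fun x => ?_)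
          exact nat_apply q _ _ }
    have hTq : Epi Tq := by
      refine epi_of_surj _ fun X y => ?_
      choose z hz using fun x => surj_of_epi q (op (ww e x)) (y x)
      exact ⟨z, funext hz⟩
    let h : P ⟶ TT e Y := Projective.factorThru (sharp e f) Tq
    have hh : h ≫ Tq = sharp e f := Projective.factorThru_comp _ _
    have hval : ∀ (X : Orbit G) (p : P.obj (op X)) (x : G ⧸ X.stab),
        q.app (op (ww e x)) ((h.app (op X) p : ∀ x : G ⧸ X.stab, Y.obj (op (ww e x))) x) =
          f.app (op (ww e x)) (P.map (oo e X x).op p) := by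
      intro X p x
      have h1 := congrArg (fun u : P ⟶ TT e Y' => u.app (op X) p) hh
      exact congrFun h1 x
    let α : (Res e).obj P ⟶ Y :=
      { app := fun s => ModuleCat.ofHom
          { toFun := fun p : P.obj (op ((uu e).obj s.unop)) =>
              Y.map (homOfLE (le_ww_bp e s.unop)).op
                ((h.app (op ((uu e).obj s.unop)) p : ∀ x : G ⧸ cl e s.unop, Y.obj (op (ww e x)))
                  (bp (cl e s.unop)))
            map_add' := fun p p' => by
              rw [map_add]
              exact map_add _ _ _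
            map_smul' := fun c p => by
              rw [map_smul]
              exact map_smul _ _ _ }
        naturality := fun s t k => by
          refine ModuleCat.hom_ext (LinearMap.ext fun p => ?_)
          let p' : P.obj (op ((uu e).obj s.unop)) := p
          have h1 : h.app (op ((uu e).obj t.unop)) (P.map ((uu e).map k.unop).op p') =
              (TT e Y).map ((uu e).map k.unop).op (h.app (op ((uu e).obj s.unop)) p') :=
            nat_apply h _ _
          change Y.map (homOfLE (le_ww_bp e t.unop)).op
                ((h.app (op ((uu e).obj t.unop)) (P.map ((uu e).map k.unop).op p') :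
                  ∀ x : G ⧸ cl e t.unop, Y.obj (op (ww e x))) (bp (cl e t.unop))) =
            Y.map k (Y.map (homOfLE (le_ww_bp e s.unop)).op
                ((h.app (op ((uu e).obj s.unop)) p' : ∀ x : G ⧸ cl e s.unop, Y.obj (op (ww e x)))
                  (bp (cl e s.unop))))
          rw [h1]
          have hbp : MulActionHom.toFun ((uu e).map k.unop) (bp (cl e t.unop)) =
              bp (cl e s.unop) := one_smul G _
          have h2 : ∀ (y : ∀ x : G ⧸ cl e s.unop, Y.obj (op (ww e x))) (z : G ⧸ cl e s.unop)
              (hz : z = bp (cl e s.unop)) (hle : t.unop ≤ ww e z),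
              Y.map (homOfLE hle).op (y z) = Y.map k (Y.map (homOfLE (le_ww_bp e s.unop)).op
                (y (bp (cl e s.unop)))) := by
            rintro y z rfl hle
            exact (map_map_FB _ _ _ _).symm
          refine (map_map_FB _ _ _ _).trans (h2 _ _ hbp ?_)
          exact (le_ww_bp e t.unop).trans (ww_le e ((uu e).map k.unop) (bp (cl e t.unop))) }
    refine ⟨α, NatTrans.ext (funext fun s => ModuleCat.hom_ext (LinearMap.ext fun p => ?_))⟩
    let p' : P.obj (op ((uu e).obj s.unop)) := p
    change q.app s (Y.map (homOfLE (le_ww_bp e s.unop)).op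
      ((h.app (op ((uu e).obj s.unop)) p' : ∀ x : G ⧸ cl e s.unop, Y.obj (op (ww e x)))
        (bp (cl e s.unop)))) = f.app s p'
    rw [nat_apply q]
    have h1 := hval ((uu e).obj s.unop) p' (bp (cl e s.unop))
    refine (congrArg _ h1).trans ?_
    refine (nat_apply f (homOfLE (le_ww_bp e s.unop)).op _).symm.trans ?_
    change f.app s (P.map ((uu e).map (homOfLE (le_ww_bp e s.unop))).op
      (P.map (oo e ((uu e).obj s.unop) (bp (cl e s.unop))).op p')) = f.app s p'
    have h5 : P.map ((uu e).map (homOfLE (le_ww_bp e s.unop))).op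
        (P.map (oo e ((uu e).obj s.unop) (bp (cl e s.unop))).op p') = p' := by
      refine (map_comp_Coef (P := P) ((uu e).map (homOfLE (le_ww_bp e s.unop)))
        (oo e ((uu e).obj s.unop) (bp (cl e s.unop))) p').symm.trans ?_
      refine (congrArg (fun u : (uu e).obj s.unop ⟶ (uu e).obj s.unop => P.map u.op p')
        (oo_bp e s.unop)).trans ?_
      exact congrArg (fun t => t p') (congrArg ModuleCat.Hom.hom (P.map_id _))
    exact congrArg _ h5

end Q4.Orb
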